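import Pool.Agent.H891.RG.Fin

/-! The equality case. -/

set_option autoImplicit false
set_option linter.overlappingInstances false
set_option linter.unusedSectionVars false

open FF IntermediateField Pool.Agent.W619.PQ Pool.Agent.W619.PL Pool.Agent.W619.TW
  Pool.Agent.W603.LV Pool.Agent.W619.Y Pool.Agent.Y174 Pool.Agent.Y173.QA Pool.Agent.H891.KS

namespace Pool.Agent.H891.RG

section

variable {k K : Type} [Field k] [CharZero k] [Field K] [Algebra k K] {n : ℕ}

/-- the compositum of two subfields -/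
theorem comp_top (T₁ : IntermediateField k K) {A : Set K} {B : Set K}
    (hT : IntermediateField.adjoin T₁ B = ⊤) (h1 : (T₁ : Set K) ⊆ A) (h2 : B ⊆ A) :
    IntermediateField.adjoin k A = ⊤ := by
  let M := IntermediateField.adjoin k A
  have hle : T₁ ≤ M := fun z hz => IntermediateField.subset_adjoin _ _ (h1 hz)
  have h3 : IntermediateField.adjoin T₁ B ≤ IntermediateField.extendScalars hle := by
    rw [IntermediateField.adjoin_le_iff]
    intro z hz
    exact IntermediateField.subset_adjoin k A (h2 hz)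
  rw [hT] at h3
  rw [eq_top_iff]
  intro z _
  exact h3 (IntermediateField.mem_top (x := z))

variable [IsAlgClosed k]

open scoped Classical in
/-- **The equality case.** -/
theorem equality (hess : Algebra.EssFiniteType k K) {x : Fin n → K}
    (hx : IsTranscendenceBasis k x) {I : Finset (Fin n)} (hI : I.Nonempty)
    (hI' : Iᶜ.Nonempty) {δ : Place k K → ℝ} {δ₁ : FibDiv k x I} {δ₂ : FibDiv k x Iᶜ}
    (hδ₁ : IsRestr k x I δ δ₁) (hδ₂ : IsRestr k x Iᶜ δ δ₂) {S : Finset K} {m b N₁ N₂ : ℕ}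
    (hN₁ : ∀ N', FibIndep k x I δ₁ S m b N' → N' ≤ N₁)
    (hN₂ : ∀ N', FibIndep k x Iᶜ δ₂ S m b N' → N' ≤ N₂)
    (hN : HasIndep k K n (N₁ * N₂) (PairSec k K n δ S m b)) (hpos : 0 < N₁ * N₂) :
    (∃ (w : K) (a : Fin N₂ → K) (c : Fin N₁ → K), w ≠ 0 ∧ (∀ j, a j ∈ LL (k := k) x I) ∧
      (∀ i, c i ∈ LL (k := k) x Iᶜ) ∧ LinearIndependent k a ∧ LinearIndependent k c ∧
      ∀ ω, PairSec k K n δ S m b ω ↔
        ∃ s : Fin N₂ × Fin N₁ → k, ω = frm k x m (∑ p, s p • (a p.1 * c p.2 * w))) ∧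
    (∀ a₁ a₂ : ℕ, FibImageDim k x I δ₁ S m b a₁ → FibImageDim k x Iᶜ δ₂ S m b a₂ →
      ImageDim k K n δ S m b (a₁ + a₂)) ∧
    (FibImageBir k x I δ₁ S m b ∨ FibImageBir k x Iᶜ δ₂ S m b →
      IntermediateField.adjoin k ((LL (k := k) x I : Set K) ∪ LL (k := k) x Iᶜ) = ⊤) := by
  have hn : Algebra.trdeg k K = n := by
    rw [← hx.cardinalMk_eq_trdeg, Cardinal.mk_fin]
  obtain ⟨E, hE⟩ := Pool.Agent.W636.PG.exists_duals k K n _ hx
  obtain ⟨w, a, c, hw, ha, hc, hla, hlc, hsec⟩ :=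
    core hess hx hI hI' hδ₁ hδ₂ hN₁ hN₂ hN hpos
  refine ⟨⟨w, a, c, hw, ha, hc, hla, hlc, hsec⟩, ?_⟩
  obtain ⟨O, C, H⟩ := half₁ (k := k) hx I
  obtain ⟨O', C', H'⟩ := half₂ (k := k) hx I
  have hcL : LinearIndependent (LL (k := k) x I) c := H'.lin_disj hc hlc
  have haL : LinearIndependent (LL (k := k) x Iᶜ) a := H.lin_disj ha hla
  have hp1 : 0 < N₁ := Nat.pos_of_mul_pos_right hpos
  have hp2 : 0 < N₂ := Nat.pos_of_mul_pos_left hpos
  let i₀ : Fin N₁ := ⟨0, hp1⟩
  let j₀ : Fin N₂ := ⟨0, hp2⟩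
  have ha0 : ∀ j, a j ≠ 0 := fun j => hla.ne_zero j
  have hc0 : ∀ i, c i ≠ 0 := fun i => hlc.ne_zero i
  have hprod : ∀ j i, PairSec k K n δ S m b (frm k x m (a j * c i * w)) := by
    intro j i
    refine (hsec _).2 ⟨Pi.single (j, i) 1, ?_⟩
    congr 1
    rw [Finset.sum_eq_single (j, i)]
    · rw [Pi.single_eq_same, one_smul]
    · intro p _ hp
      rw [Pi.single_eq_of_ne hp, zero_smul]
    · intro h
      exact (h (Finset.mem_univ _)).elim
  obtain ⟨hA, hB⟩ := side hess hn hx I hI hδ₁ hN₁ (c := c) (w := a j₀ * w)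
    (mul_ne_zero (ha0 j₀) hw) (fun i => by
      have h1 : c i * (a j₀ * w) = a j₀ * c i * w := by ring
      rw [h1]
      exact hprod j₀ i) hcL i₀
  obtain ⟨hA', hB'⟩ := side hess hn hx Iᶜ hI' hδ₂ hN₂ (c := a) (w := c i₀ * w)
    (mul_ne_zero (hc0 i₀) hw) (fun j => by
      rw [← mul_assoc]
      exact hprod j i₀) haL j₀
  refine ⟨?_, ?_⟩
  · intro a₁ a₂ h₁ h₂
    obtain ⟨e₁, he₁⟩ := hA a₁ h₁
    obtain ⟨e₂, he₂⟩ := hA' a₂ h₂
    have he₃ : AlgebraicIndependent k fun l => a (e₂ l) / a j₀ :=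
      he₂.restrictScalars (algebraMap k (LL (k := k) x Iᶜ)).injective
    have hmem : ∀ l, a (e₂ l) / a j₀ ∈ LL (k := k) x I := fun l => div_mem (ha _) (ha _)
    have he₄ : AlgebraicIndependent k
        fun l => (⟨a (e₂ l) / a j₀, hmem l⟩ : LL (k := k) x I) := by
      rw [← (LL (k := k) x I).val.algebraicIndependent_iff Subtype.val_injective]
      exact he₃
    have he₅ := AlgebraicIndependent.sumElim_comp he₄ he₁
    have he₆ := he₅.comp (finSumFinEquiv (m := a₁) (n := a₂)).symm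
      (finSumFinEquiv (m := a₁) (n := a₂)).symm.injective
    refine ⟨Fin.cons (frm k x m (a j₀ * c i₀ * w)) (fun l => Sum.elim
      (fun l => frm k x m (a j₀ * c (e₁ l) * w)) (fun l => frm k x m (a (e₂ l) * c i₀ * w))
      ((finSumFinEquiv (m := a₁) (n := a₂)).symm l)), ?_, E, ?_, ?_⟩
    · intro l
      refine Fin.cases (hprod j₀ i₀) (fun l => ?_) l
      rw [Fin.cons_succ]
      rcases (finSumFinEquiv (m := a₁) (n := a₂)).symm l with l | l
      · exact hprod _ _
      · exact hprod _ _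
    · intro l
      refine Fin.cases ?_ (fun l => ?_) l
      · rw [Fin.cons_zero, frm_E hE]
        exact mul_ne_zero (mul_ne_zero (ha0 _) (hc0 _)) hw
      · rw [Fin.cons_succ]
        rcases (finSumFinEquiv (m := a₁) (n := a₂)).symm l with l | l
        · rw [Sum.elim_inl, frm_E hE]
          exact mul_ne_zero (mul_ne_zero (ha0 _) (hc0 _)) hw
        · rw [Sum.elim_inr, frm_E hE]
          exact mul_ne_zero (mul_ne_zero (ha0 _) (hc0 _)) hw
    · have h1 : (fun l : Fin (a₁ + a₂) =>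
          (Fin.cons (frm k x m (a j₀ * c i₀ * w)) (fun l => Sum.elim
            (fun l => frm k x m (a j₀ * c (e₁ l) * w)) (fun l => frm k x m (a (e₂ l) * c i₀ * w))
            ((finSumFinEquiv (m := a₁) (n := a₂)).symm l)) :
              Fin (a₁ + a₂ + 1) → (Fin n → Derivation k K K) → K) l.succ E /
          (Fin.cons (frm k x m (a j₀ * c i₀ * w)) (fun l => Sum.elim
            (fun l => frm k x m (a j₀ * c (e₁ l) * w)) (fun l => frm k x m (a (e₂ l) * c i₀ * w))
            ((finSumFinEquiv (m := a₁) (n := a₂)).symm l)) :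
              Fin (a₁ + a₂ + 1) → (Fin n → Derivation k K K) → K) 0 E) =
          (Sum.elim (fun l => c (e₁ l) / c i₀) ((algebraMap (LL (k := k) x I) K) ∘
            fun l => (⟨a (e₂ l) / a j₀, hmem l⟩ : LL (k := k) x I))) ∘
            (finSumFinEquiv (m := a₁) (n := a₂)).symm := by
        funext l
        rw [Fin.cons_succ, Fin.cons_zero, frm_E hE, Function.comp_apply]
        rcases (finSumFinEquiv (m := a₁) (n := a₂)).symm l with l | l
        · rw [Sum.elim_inl, Sum.elim_inl, frm_E hE]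
          rw [mul_assoc, mul_assoc, mul_div_mul_left _ _ (ha0 j₀), mul_div_mul_right _ _ hw]
        · rw [Sum.elim_inr, Sum.elim_inr, frm_E hE]
          show _ = a (e₂ l) / a j₀
          rw [mul_div_mul_right _ _ hw, mul_div_mul_right _ _ (hc0 i₀)]
      rw [h1]
      exact he₆
  · rintro (h | h)
    · refine comp_top (LL (k := k) x I) (hB h) Set.subset_union_left ?_
      rintro _ ⟨i, rfl⟩
      exact Or.inr (div_mem (hc _) (hc _))
    · refine comp_top (LL (k := k) x Iᶜ) (hB' h) Set.subset_union_right ?_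
      rintro _ ⟨i, rfl⟩
      exact Or.inl (div_mem (ha _) (ha _))

end

end Pool.Agent.H891.RG
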