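import Pool.Agent.H891.RG.Main

/-! The maps defined by the sections on the geometric generic fibre and on the variety. -/

set_option autoImplicit false
set_option linter.overlappingInstances false
set_option linter.unusedSectionVars false

open FF IntermediateField Pool.Agent.W619.PQ Pool.Agent.W619.PL Pool.Agent.W619.TW
  Pool.Agent.W603.LV Pool.Agent.W619.Y Pool.Agent.Y174 Pool.Agent.Y173.QA Pool.Agent.H891.KS

namespace Pool.Agent.H891.RG

section

/-- The sections of `m (K + Δ) + b A` define a rational map whose image has dimension at least `a`: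
there are `a + 1` of them with algebraically independent ratios. -/
def ImageDim (k K : Type) [Field k] [Field K] [Algebra k K] (n : ℕ) (δ : Place k K → ℝ)
    (S : Finset K) (m b a : ℕ) : Prop :=
  ∃ ω : Fin (a + 1) → (Fin n → Derivation k K K) → K, (∀ l, PairSec k K n δ S m b (ω l)) ∧
    ∃ D, (∀ l, ω l D ≠ 0) ∧ AlgebraicIndependent k (fun l : Fin a => ω l.succ D / ω 0 D)

/-- The sections of `m (K + Δ) + b A` define a birational map: the ratios of finitely many of them
generate the function field. -/
def ImageBir (k K : Type) [Field k] [Field K] [Algebra k K] (n : ℕ) (δ : Place k K → ℝ)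
    (S : Finset K) (m b : ℕ) : Prop :=
  ∃ (a : ℕ) (ω : Fin (a + 1) → (Fin n → Derivation k K K) → K),
    (∀ l, PairSec k K n δ S m b (ω l)) ∧
    ∃ D, ω 0 D ≠ 0 ∧ IntermediateField.adjoin k (Set.range fun l => ω l D / ω 0 D) = ⊤

end

section

variable {k K : Type} [Field k] [CharZero k] [Field K] [Algebra k K]

theorem fib_side (hess : Algebra.EssFiniteType k K) {n : ℕ} (hn : Algebra.trdeg k K = n)
    {y : Fin n → K} (hy : IsTranscendenceBasis k y) (I : Finset (Fin n)) (hI : I.Nonempty)
    (L : IntermediateField k K)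
    (hL : ∀ x, x ∈ L ↔ IsAlgebraic (Algebra.adjoin k (y '' {i | i ∉ I})) x)
    {Λ F : Type} [Field Λ] [Field F] [Algebra L Λ] [Algebra Λ F] [Algebra K F]
    [IsScalarTower L Λ F] [Algebra k Λ] [Algebra k F] [IsScalarTower k Λ F]
    [IsScalarTower k K F] [IsScalarTower k L Λ] [Algebra.IsAlgebraic L Λ]
    (hgenF : IntermediateField.adjoin Λ (Set.range (algebraMap K F)) = ⊤)
    {δ : Place k K → ℝ} {δ' : Place Λ F → ℝ} (hδ : IsPullFib δ δ') [DecidableEq F]
    {S : Finset K} {m b N : ℕ}
    (hmax : ∀ N', HasIndep Λ F I.card N' (PairSec Λ F I.card δ' (S.image (algebraMap K F)) m b) →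
      N' ≤ N) {c : Fin N → K} {w : K} (hw : w ≠ 0)
    (hsec : ∀ i, PairSec k K n δ S m b (frm k y m (c i * w))) (hc : LinearIndependent L c)
    (i₀ : Fin N) :
    (∀ a, ImageDim Λ F I.card δ' (S.image (algebraMap K F)) m b a →
      ∃ e : Fin a → Fin N, AlgebraicIndependent L fun l => c (e l) / c i₀) ∧
    (ImageBir Λ F I.card δ' (S.image (algebraMap K F)) m b →
      IntermediateField.adjoin Λ (Set.range fun i => algebraMap K F (c i / c i₀)) = ⊤) := by
  classical
  have hL0 : CharZero L := charZero_of_injective_algebraMap (algebraMap k L).injective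
  have hΛ0 : CharZero Λ := charZero_of_injective_algebraMap (algebraMap k Λ).injective
  obtain ⟨z, hz, hres⟩ := restr_forms hess hn hy I hI L hL hgenF hδ
  let u : Fin N → F := fun i => algebraMap K F (c i * w)
  have hu : ∀ i, PairSec Λ F I.card δ' (S.image (algebraMap K F)) m b (frm Λ z m (u i)) :=
    fun i => hres S m b _ (hsec i)
  have hmemJ : ∀ i ∉ I, y i ∈ L := fun i hi => (hL _).2
    (isAlgebraic_algebraMap (⟨y i, Algebra.subset_adjoin ⟨i, hi, rfl⟩⟩ :
      Algebra.adjoin k (y '' {i | i ∉ I})))
  have hcl : ∀ z : K, IsIntegral L z → ∃ y : L, algebraMap L K y = z := by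
    intro z hz
    have hRL : Algebra.adjoin k (y '' {i | i ∉ I}) ≤ L.toSubalgebra := by
      rw [Algebra.adjoin_le_iff]
      rintro _ ⟨i, hi, rfl⟩
      exact hmemJ i hi
    exact ⟨⟨z, closed_of _ L hL hRL hz⟩, rfl⟩
  have hcw : LinearIndependent L fun i => c i * w := by
    have h1 : (fun i => c i * w) = (LinearMap.mulRight L w) ∘ c := rfl
    rw [h1]
    exact hc.map' _ (LinearMap.ker_eq_bot.2 fun a b h => mul_right_cancel₀ hw h)
  have hli : LinearIndependent Λ u := Pool.Agent.Y174.lin_disj (Λ := Λ) (F := F) hcl hcw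
  have hu0 : u i₀ ≠ 0 := hli.ne_zero i₀
  have hratio : ∀ i, u i / u i₀ = algebraMap K F (c i / c i₀) := by
    intro i
    show algebraMap K F (c i * w) / algebraMap K F (c i₀ * w) = _
    rw [← map_div₀, mul_div_mul_right _ _ hw]
  have hset : (Set.range fun i => u i / u i₀) = Set.range fun i => algebraMap K F (c i / c i₀) := by
    simp only [hratio]
  refine ⟨?_, ?_⟩
  · rintro a ⟨ω, hω, D, hD0, hD⟩
    have hval : ∀ l, ∃ s : Fin N → Λ, ω l = frm Λ z m (∑ i, s i • u i) := fun l =>
      fib_values hz hu hli hmax (hω l)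
    choose s hs using hval
    have hdet : (Matrix.of fun i j => D i (z j)).det ^ m ≠ 0 := by
      intro h
      apply hD0 0
      rw [hs 0]
      show (Matrix.of fun i j => D i (z j)).det ^ m * _ = 0
      rw [h, zero_mul]
    have hr : ∀ l, ω l D / ω 0 D = (∑ i, s l i • u i) / (∑ i, s 0 i • u i) := by
      intro l
      rw [hs l, hs 0]
      show ((Matrix.of fun i j => D i (z j)).det ^ m * _) /
        ((Matrix.of fun i j => D i (z j)).det ^ m * _) = _
      rw [mul_div_mul_left _ _ hdet]
    obtain ⟨e, he⟩ := select (Λ := Λ) (fun i => u i / u i₀) hD fun l => by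
      rw [hr]
      exact ratio_mem hu0 _ _
    refine ⟨e, ?_⟩
    have h1 : AlgebraicIndependent L ((fun i => u i / u i₀) ∘ e) :=
      he.restrictScalars (algebraMap L Λ).injective
    have h2 : ((fun i => u i / u i₀) ∘ e) =
        (IsScalarTower.toAlgHom L K F) ∘ fun l => c (e l) / c i₀ :=
      funext fun l => hratio (e l)
    rw [h2] at h1
    exact ((IsScalarTower.toAlgHom L K F).algebraicIndependent_iff
      (algebraMap K F).injective).1 h1
  · rintro ⟨a, ω, hω, D, hD0, hD⟩
    rw [← hset, eq_top_iff, ← hD, IntermediateField.adjoin_le_iff]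
    rintro _ ⟨l, rfl⟩
    have hval : ∀ l, ∃ s : Fin N → Λ, ω l = frm Λ z m (∑ i, s i • u i) := fun l =>
      fib_values hz hu hli hmax (hω l)
    choose s hs using hval
    have hdet : (Matrix.of fun i j => D i (z j)).det ^ m ≠ 0 := by
      intro h
      apply hD0
      rw [hs 0]
      show (Matrix.of fun i j => D i (z j)).det ^ m * _ = 0
      rw [h, zero_mul]
    have hr : ω l D / ω 0 D = (∑ i, s l i • u i) / (∑ i, s 0 i • u i) := by
      rw [hs l, hs 0]
      show ((Matrix.of fun i j => D i (z j)).det ^ m * _) /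
        ((Matrix.of fun i j => D i (z j)).det ^ m * _) = _
      rw [mul_div_mul_left _ _ hdet]
    show ω l D / ω 0 D ∈ _
    rw [hr]
    exact ratio_mem hu0 _ _

end

end Pool.Agent.H891.RG
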