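import Pool.Agent.H891.RG.Side

/-! Generators of the function field of the geometric generic fibre. -/

set_option autoImplicit false
set_option linter.overlappingInstances false
set_option linter.unusedSectionVars false

open IntermediateField Pool.Agent.Y174

universe u

namespace Pool.Agent.H891.RG

section

variable {L K Λ F : Type u} [Field L] [CharZero L] [Field K] [Field Λ] [Field F] [Algebra L K]
  [Algebra L Λ] [Algebra Λ F] [Algebra K F] [Algebra L F] [IsScalarTower L Λ F]
  [IsScalarTower L K F] [Algebra.IsAlgebraic L Λ]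

/-- elements of `Λ` which are independent over `L` are independent over `K` -/
theorem li_up (hcl : ∀ x : K, IsIntegral L x → ∃ y : L, algebraMap L K y = x) {ι : Type*}
    [Fintype ι] {μ : ι → Λ} (hμ : LinearIndependent L μ) {κ : ι → K}
    (h0 : ∑ s, algebraMap Λ F (μ s) * algebraMap K F (κ s) = 0) : ∀ s, κ s = 0 := by
  classical
  let U := Submodule.span L (Set.range κ)
  have hU : FiniteDimensional L U := FiniteDimensional.span_of_finite L (Set.finite_range _)
  let e := Module.finBasis L U
  have he : LinearIndependent L fun i => (e i : K) :=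
    e.linearIndependent.map' U.subtype (Submodule.ker_subtype U)
  have h1 := lin_disj (Λ := Λ) (F := F) hcl he
  let t : ι → Fin (Module.finrank L U) → L := fun s i =>
    e.repr ⟨κ s, Submodule.subset_span ⟨s, rfl⟩⟩ i
  have hκ : ∀ s, κ s = ∑ i, t s i • (e i : K) := by
    intro s
    have h2 := e.sum_repr ⟨κ s, Submodule.subset_span ⟨s, rfl⟩⟩
    have h3 := (congrArg (Submodule.subtype _) h2).symm
    rw [map_sum] at h3
    exact h3
  have h2 : ∑ i, (∑ s, t s i • μ s) • algebraMap K F (e i : K) = 0 := by
    rw [← h0]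
    simp only [Finset.sum_smul]
    rw [Finset.sum_comm]
    refine Finset.sum_congr rfl fun s _ => ?_
    conv_rhs => rw [hκ s, map_sum, Finset.mul_sum]
    refine Finset.sum_congr rfl fun i _ => ?_
    rw [Algebra.smul_def, Algebra.smul_def, Algebra.smul_def, map_mul, map_mul,
      ← IsScalarTower.algebraMap_apply L Λ F, ← IsScalarTower.algebraMap_apply L K F]
    ring
  have h3 := Fintype.linearIndependent_iff.1 h1 _ h2
  intro s
  rw [hκ s]
  refine Finset.sum_eq_zero fun i _ => ?_
  rw [Fintype.linearIndependent_iff.1 hμ _ (h3 i) s, zero_smul]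

/-- **Generators descend.** -/
theorem desc_gen (hcl : ∀ x : K, IsIntegral L x → ∃ y : L, algebraMap L K y = x) {N : ℕ}
    (β : Fin N → K)
    (h : IntermediateField.adjoin Λ (Set.range fun i => algebraMap K F (β i)) = ⊤) :
    IntermediateField.adjoin L (Set.range β) = ⊤ := by
  classical
  let R := Algebra.adjoin L (Set.range β)
  let V : Submodule L Λ → Submodule L F := fun U =>
    Submodule.span L {x | ∃ u ∈ U, ∃ r ∈ R, x = algebraMap Λ F u * algebraMap K F r}
  have hVmono : ∀ U U', U ≤ U' → V U ≤ V U' := by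
    intro U U' hUU
    refine Submodule.span_mono ?_
    rintro x ⟨u, hu, r, hr, rfl⟩
    exact ⟨u, hUU hu, r, hr, rfl⟩
  -- every element of the subalgebra is in some `V U`
  have hspan : ∀ p ∈ Algebra.adjoin Λ (Set.range fun i => algebraMap K F (β i)),
      p ∈ Submodule.span Λ (algebraMap K F '' (R : Set K)) := by
    intro p hp
    induction hp using Algebra.adjoin_induction with
    | mem x hx =>
      obtain ⟨i, rfl⟩ := hx
      exact Submodule.subset_span ⟨β i, Algebra.subset_adjoin ⟨i, rfl⟩, rfl⟩
    | algebraMap c =>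
      rw [Algebra.algebraMap_eq_smul_one]
      exact Submodule.smul_mem _ _ (Submodule.subset_span ⟨1, R.one_mem, map_one _⟩)
    | add x y _ _ hx hy => exact Submodule.add_mem _ hx hy
    | mul x y hx0 hy0 hx hy =>
      clear hx0 hy0
      induction hx using Submodule.span_induction with
      | mem x hx =>
        obtain ⟨r, hr, rfl⟩ := hx
        clear * - hy hr
        induction hy using Submodule.span_induction with
        | mem y hy =>
          obtain ⟨r', hr', rfl⟩ := hy
          exact Submodule.subset_span ⟨r * r', R.mul_mem hr hr', map_mul _ _ _⟩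
        | zero => rw [mul_zero]; exact Submodule.zero_mem _
        | add x y _ _ hx hy => rw [mul_add]; exact Submodule.add_mem _ hx hy
        | smul c x _ hx => rw [mul_smul_comm]; exact Submodule.smul_mem _ _ hx
      | zero => rw [zero_mul]; exact Submodule.zero_mem _
      | add x y _ _ hx hy => rw [add_mul]; exact Submodule.add_mem _ hx hy
      | smul c x _ hx => rw [smul_mul_assoc]; exact Submodule.smul_mem _ _ hx
  have hex : ∀ p ∈ Submodule.span Λ (algebraMap K F '' (R : Set K)),
      ∃ U : Submodule L Λ, FiniteDimensional L U ∧ p ∈ V U := by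
    intro p hp
    induction hp using Submodule.span_induction with
    | mem x hx =>
      obtain ⟨r, hr, rfl⟩ := hx
      exact ⟨Submodule.span L {1}, FiniteDimensional.span_of_finite L (Set.finite_singleton _),
        Submodule.subset_span ⟨1, Submodule.subset_span rfl, r, hr, by rw [map_one, one_mul]⟩⟩
    | zero => exact ⟨⊥, inferInstance, Submodule.zero_mem _⟩
    | add x y _ _ hx hy =>
      obtain ⟨U, hU, hx⟩ := hx
      obtain ⟨U', hU', hy⟩ := hy
      exact ⟨U ⊔ U', inferInstance, Submodule.add_mem _ (hVmono _ _ le_sup_left hx)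
        (hVmono _ _ le_sup_right hy)⟩
    | smul c x _ hx =>
      obtain ⟨U, hU, hx⟩ := hx
      refine ⟨U.map (LinearMap.mulLeft L c), inferInstance, ?_⟩
      have h1 : V U ≤ (V (U.map (LinearMap.mulLeft L c))).comap
          ((LinearMap.mulLeft L (algebraMap Λ F c))) := by
        rw [Submodule.span_le]
        rintro _ ⟨u, hu, r, hr, rfl⟩
        refine Submodule.subset_span ⟨c * u, ⟨u, hu, rfl⟩, r, hr, ?_⟩
        show algebraMap Λ F c * (algebraMap Λ F u * algebraMap K F r) = _
        rw [map_mul, mul_assoc]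
      have h2 := h1 hx
      rw [Algebra.smul_def]
      exact h2
  rw [eq_top_iff]
  intro θ _
  have hθ : algebraMap K F θ ∈
      IntermediateField.adjoin Λ (Set.range fun i => algebraMap K F (β i)) := by
    rw [h]
    trivial
  obtain ⟨p, hp, q, hq, hpq⟩ := IntermediateField.mem_adjoin_iff_div.1 hθ
  by_cases hθ0 : θ = 0
  · rw [hθ0]
    exact zero_mem _
  have hq0 : q ≠ 0 := by
    rintro rfl
    rw [div_zero] at hpq
    exact hθ0 ((map_eq_zero _).1 hpq)
  obtain ⟨U, hU, hpU⟩ := hex p (hspan p hp)
  obtain ⟨U', hU', hqU⟩ := hex q (hspan q hq)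
  have hpU'' := hVmono _ _ (le_sup_left : U ≤ U ⊔ U') hpU
  have hqU'' := hVmono _ _ (le_sup_right : U' ≤ U ⊔ U') hqU
  let e := Module.finBasis L ↥(U ⊔ U')
  have he : LinearIndependent L fun i => (e i : Λ) :=
    e.linearIndependent.map' (U ⊔ U').subtype (Submodule.ker_subtype _)
  have hrep : ∀ x ∈ V (U ⊔ U'), ∃ P : Fin (Module.finrank L ↥(U ⊔ U')) → K, (∀ s, P s ∈ R) ∧
      x = ∑ s, algebraMap Λ F (e s : Λ) * algebraMap K F (P s) := by
    intro x hx
    induction hx using Submodule.span_induction with
    | mem x hx =>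
      obtain ⟨u, hu, r, hr, rfl⟩ := hx
      refine ⟨fun s => e.repr ⟨u, hu⟩ s • r, fun s => R.smul_mem hr _, ?_⟩
      have h2 := e.sum_repr ⟨u, hu⟩
      have h3 := (congrArg (Submodule.subtype _) h2).symm
      rw [map_sum] at h3
      change u = _ at h3
      conv_lhs => rw [h3]
      rw [map_sum, Finset.sum_mul]
      refine Finset.sum_congr rfl fun s _ => ?_
      rw [map_smul]
      change algebraMap Λ F (e.repr ⟨u, hu⟩ s • (e s : Λ)) * _ =
        _ * algebraMap K F (e.repr ⟨u, hu⟩ s • r)
      rw [Algebra.smul_def, Algebra.smul_def, map_mul, map_mul,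
        ← IsScalarTower.algebraMap_apply L Λ F, ← IsScalarTower.algebraMap_apply L K F]
      ring
    | zero => exact ⟨fun _ => 0, fun _ => R.zero_mem, by simp⟩
    | add x y _ _ hx hy =>
      obtain ⟨P, hP, rfl⟩ := hx
      obtain ⟨Q, hQ, rfl⟩ := hy
      refine ⟨fun s => P s + Q s, fun s => R.add_mem (hP s) (hQ s), ?_⟩
      rw [← Finset.sum_add_distrib]
      exact Finset.sum_congr rfl fun s _ => by rw [map_add, mul_add]
    | smul c x _ hx =>
      obtain ⟨P, hP, rfl⟩ := hx
      refine ⟨fun s => c • P s, fun s => R.smul_mem (hP s) _, ?_⟩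
      rw [Finset.smul_sum]
      refine Finset.sum_congr rfl fun s _ => ?_
      change _ = algebraMap Λ F (e s : Λ) * algebraMap K F (c • P s)
      rw [Algebra.smul_def, Algebra.smul_def, map_mul, ← IsScalarTower.algebraMap_apply L K F]
      ring
  obtain ⟨P, hP, hpe⟩ := hrep p hpU''
  obtain ⟨Q, hQ, hqe⟩ := hrep q hqU''
  have hrel : ∑ s, algebraMap Λ F (e s : Λ) * algebraMap K F (θ * Q s - P s) = 0 := by
    have h1 : algebraMap K F θ * q = p := by
      rw [hpq, div_mul_cancel₀ _ hq0]
    rw [hpe, hqe, Finset.mul_sum, ← sub_eq_zero, ← Finset.sum_sub_distrib] at h1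
    rw [← h1]
    refine Finset.sum_congr rfl fun s _ => ?_
    rw [map_sub, map_mul]
    ring
  have h2 := li_up hcl he hrel
  have hex : ∃ s, Q s ≠ 0 := by
    by_contra hcon
    push Not at hcon
    apply hq0
    rw [hqe]
    refine Finset.sum_eq_zero fun s _ => ?_
    rw [hcon s, map_zero, mul_zero]
  obtain ⟨s, hs⟩ := hex
  have h3 : θ = P s / Q s := by
    rw [eq_div_iff hs]
    exact sub_eq_zero.1 (h2 s)
  rw [h3]
  have hRle : ∀ r ∈ R, r ∈ IntermediateField.adjoin L (Set.range β) := fun r hr =>
    IntermediateField.algebra_adjoin_le_adjoin L _ hr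
  exact div_mem (hRle _ (hP s)) (hRle _ (hQ s))

end

end Pool.Agent.H891.RG
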