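import Pool.Agent.H891.RG.Rigid
import Pool.Agent.H891.KS.Main

/-! Existence of the valuations. -/

set_option autoImplicit false
set_option linter.overlappingInstances false
set_option linter.unusedSectionVars false

open FF IntermediateField Pool.Agent.W619.PQ Pool.Agent.W619.PL Pool.Agent.W619.TW
  Pool.Agent.W603.LV Pool.Agent.W619.Y Pool.Agent.Y174 Pool.Agent.Y173.QA Pool.Agent.H891.KS

namespace Pool.Agent.H891.RG

section

variable {k K : Type} [Field k] [CharZero k] [Field K] [Algebra k K] {n : ℕ}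

/-- the enumeration of a set of indices -/
noncomputable def en (J : Finset (Fin n)) : Fin J.card → Fin n := J.orderEmbOfFin rfl

theorem en_mem (J : Finset (Fin n)) (i : Fin J.card) : en J i ∈ J :=
  Finset.orderEmbOfFin_mem J rfl i

theorem en_inj (J : Finset (Fin n)) : Function.Injective (en J) :=
  (J.orderEmbOfFin rfl).injective

theorem en_surj {J : Finset (Fin n)} {j : Fin n} (hj : j ∈ J) : ∃ i, en J i = j := by
  have h1 := Finset.range_orderEmbOfFin J rfl
  have h2 : j ∈ Set.range (J.orderEmbOfFin rfl) := by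
    rw [h1]
    exact hj
  exact h2

theorem mem_of_hL {y : Fin n → K} {J : Finset (Fin n)} {L : IntermediateField k K}
    (hL : ∀ x, x ∈ L ↔ IsAlgebraic (Algebra.adjoin k (y '' {i | i ∈ J})) x) {i : Fin n}
    (hi : i ∈ J) : y i ∈ L :=
  (hL _).2 (isAlgebraic_algebraMap (⟨y i, Algebra.subset_adjoin ⟨i, hi, rfl⟩⟩ :
    Algebra.adjoin k (y '' {i | i ∈ J})))

theorem basis_low {y : Fin n → K} (hy : IsTranscendenceBasis k y) {J : Finset (Fin n)}
    {L : IntermediateField k K}
    (hL : ∀ x, x ∈ L ↔ IsAlgebraic (Algebra.adjoin k (y '' {i | i ∈ J})) x) :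
    IsTranscendenceBasis k fun i => (⟨y (en J i), mem_of_hL hL (en_mem J i)⟩ : L) := by
  have ht0 : AlgebraicIndependent k fun i => (⟨y (en J i), mem_of_hL hL (en_mem J i)⟩ : L) := by
    rw [← L.val.algebraicIndependent_iff Subtype.val_injective]
    exact hy.1.comp (en J) (en_inj J)
  rw [isTranscendenceBasis_iff_algebraicIndependent_isAlgebraic]
  refine ⟨ht0, ⟨fun z => alg_down L ht0 ?_⟩⟩
  have hrange : (Set.range fun i => y (en J i)) = y '' {i | i ∈ J} := by
    ext z
    constructor
    · rintro ⟨i, rfl⟩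
      exact ⟨_, en_mem J i, rfl⟩
    · rintro ⟨i, hi, rfl⟩
      obtain ⟨j, rfl⟩ := en_surj hi
      exact ⟨j, rfl⟩
  rw [hrange]
  exact (hL _).1 z.2

theorem basis_high {y : Fin n → K} (hy : IsTranscendenceBasis k y) {J : Finset (Fin n)}
    {L : IntermediateField k K}
    (hL : ∀ x, x ∈ L ↔ IsAlgebraic (Algebra.adjoin k (y '' {i | i ∈ J})) x) :
    IsTranscendenceBasis L fun i => y (en Jᶜ i) := by
  classical
  have hn : Algebra.trdeg k K = (J.card + Jᶜ.card : ℕ) := by
    rw [← hy.cardinalMk_eq_trdeg, Cardinal.mk_fin, Finset.card_add_card_compl, Fintype.card_fin]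
  have hLd : Algebra.trdeg k L = J.card := by
    have h1 := (basis_low hy hL).cardinalMk_eq_trdeg
    rw [← h1, Cardinal.mk_fin]
  have hLK := trdeg_LK (L := L) hLd hn
  have halg : Algebra.IsAlgebraic (Algebra.adjoin L (Set.range fun i => y (en Jᶜ i))) K := by
    refine ⟨fun z => ?_⟩
    have hz : IsAlgebraic (Algebra.adjoin k (Set.range y)) z := hy.isAlgebraic.isAlgebraic z
    have hsub : Algebra.adjoin k (Set.range y) ≤
        (Algebra.adjoin L (Set.range fun i => y (en Jᶜ i))).restrictScalars k := by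
      rw [Algebra.adjoin_le_iff]
      rintro _ ⟨i, rfl⟩
      by_cases hi : i ∈ J
      · exact Subalgebra.algebraMap_mem _ (⟨y i, mem_of_hL hL hi⟩ : L)
      · obtain ⟨j, rfl⟩ := en_surj (Finset.mem_compl.2 hi)
        exact Algebra.subset_adjoin ⟨j, rfl⟩
    exact isAlg_of_hom (Subalgebra.inclusion hsub).toRingHom
      (Subalgebra.inclusion_injective hsub) (fun a => rfl) hz
  refine Algebra.IsAlgebraic.isTranscendenceBasis_of_lift_le_trdeg_of_finite L _ ?_
  rw [hLK]
  simp

/-- the algebraic closure of the field generated by the `y i`, `i ∈ J` -/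
noncomputable def clo (y : Fin n → K) (J : Finset (Fin n)) : IntermediateField k K :=
  (algebraicClosure (IntermediateField.adjoin k (y '' {i | i ∈ J})) K).restrictScalars k

theorem mem_clo {y : Fin n → K} {J : Finset (Fin n)} {z : K} :
    z ∈ clo (k := k) y J ↔ IsAlgebraic (Algebra.adjoin k (y '' {i | i ∈ J})) z := by
  rw [← IntermediateField.isAlgebraic_adjoin_iff]
  exact mem_algebraicClosure_iff

instance clo_closed [IsAlgClosed K] (y : Fin n → K) (J : Finset (Fin n)) :
    IsAlgClosed (clo (k := k) y J) :=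
  IsAlgClosure.isAlgClosed (R := IntermediateField.adjoin k (y '' {i | i ∈ J}))
    (K := algebraicClosure (IntermediateField.adjoin k (y '' {i | i ∈ J})) K)

theorem alg_iff_up {Ω : Type} [Field Ω] [Algebra k Ω] [Algebra K Ω] [IsScalarTower k K Ω]
    {S : Set K} {z : K} : IsAlgebraic (Algebra.adjoin k S) z ↔
      IsAlgebraic (Algebra.adjoin k (algebraMap K Ω '' S)) (algebraMap K Ω z) := by
  have hmap : Algebra.adjoin k (algebraMap K Ω '' S) =
      (Algebra.adjoin k S).map (IsScalarTower.toAlgHom k K Ω) := by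
    rw [AlgHom.map_adjoin]
    rfl
  have hinj : Function.Injective (IsScalarTower.toAlgHom k K Ω) := (algebraMap K Ω).injective
  let e := (Subalgebra.equivOfEq _ _ hmap).trans
    ((Algebra.adjoin k S).equivMapOfInjective (IsScalarTower.toAlgHom k K Ω) hinj).symm
  have he : ∀ a, algebraMap K Ω (e.symm.symm a : Algebra.adjoin k S) = a := by
    intro a
    have h1 := congrArg Subtype.val (((Algebra.adjoin k S).equivMapOfInjective
      (IsScalarTower.toAlgHom k K Ω) hinj).apply_symm_apply (Subalgebra.equivOfEq _ _ hmap a))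
    exact h1
  constructor
  · intro h
    have h1 : IsAlgebraic (Algebra.adjoin k S) (algebraMap K Ω z) := h.algebraMap
    refine isAlg_of_hom e.symm.toRingEquiv.toRingHom e.symm.injective (fun a => ?_) h1
    have h2 := he (e.symm a)
    have h3 : e.symm.symm (e.symm a) = a := e.symm.symm_apply_apply a
    rw [h3] at h2
    exact h2.symm
  · intro h
    have h1 := isAlg_of_hom (K := Ω) e.toRingEquiv.toRingHom e.injective (fun a => he a) h
    exact (isAlgebraic_algebraMap_iff (A := Ω) (algebraMap K Ω).injective).1 h1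

/-- **Existence of the valuation.** -/
theorem exists_half [IsAlgClosed k] {x : Fin n → K} (hx : IsTranscendenceBasis k x)
    (J : Finset (Fin n)) (T₁ T₂ : IntermediateField k K)
    (hT₁ : ∀ z, z ∈ T₁ ↔ IsAlgebraic (Algebra.adjoin k (x '' {i | i ∈ Jᶜ})) z)
    (hT₂ : ∀ z, z ∈ T₂ ↔ IsAlgebraic (Algebra.adjoin k (x '' {i | i ∈ J})) z) :
    ∃ (O : ValuationSubring (AlgebraicClosure K)) (C : Subfield (AlgebraicClosure K)),
      HalfVal O.valuation T₁ T₂ C := by
  classical
  let Ω := AlgebraicClosure K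
  let x' : Fin n → Ω := fun i => algebraMap K Ω (x i)
  have hx' : IsTranscendenceBasis k x' := hx.algebraMap_comp
  let C : IntermediateField k Ω := clo (k := k) x' J
  have hC : ∀ z, z ∈ C ↔ IsAlgebraic (Algebra.adjoin k (x' '' {i | i ∈ J})) z := fun z => mem_clo
  have hy := basis_high hx' hC
  obtain ⟨O, hO1, hO2⟩ := exists_val hy.1
  have hsetJ : x' '' {i | i ∈ J} = algebraMap K Ω '' (x '' {i | i ∈ J}) := by
    rw [Set.image_image]
  have hk : ∀ c : C, c ≠ 0 → O.valuation (algebraMap C Ω c) = 1 := by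
    intro c hc
    have h1 : O.valuation (algebraMap C Ω c) ≤ 1 := (O.valuation_le_one_iff _).2 (hO1 c)
    have h2 : O.valuation (algebraMap C Ω c⁻¹) ≤ 1 := (O.valuation_le_one_iff _).2 (hO1 _)
    have h3 : O.valuation (algebraMap C Ω c) * O.valuation (algebraMap C Ω c⁻¹) = 1 := by
      rw [← map_mul, ← map_mul, mul_inv_cancel₀ hc, map_one, map_one]
    refine le_antisymm h1 ?_
    rw [← h3]
    calc O.valuation (algebraMap C Ω c) * O.valuation (algebraMap C Ω c⁻¹)
        ≤ O.valuation (algebraMap C Ω c) * 1 := mul_le_mul_right h2 _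
      _ = _ := mul_one _
  have hkk : ∀ c : k, c ≠ 0 → O.valuation (algebraMap k Ω c) = 1 := by
    intro c hc
    exact hk (algebraMap k C c) ((map_ne_zero _).2 hc)
  refine ⟨O, C.toSubfield, ?_, ?_, ?_, ?_, ?_⟩
  · intro c hc hc0
    exact hk ⟨c, hc⟩ fun h => hc0 (congrArg Subtype.val h)
  · intro t ht
    show algebraMap K Ω t ∈ C
    rw [hC, hsetJ]
    exact alg_iff_up.1 ((hT₂ t).1 ht)
  · intro t ht
    have h1 : algebraMap K Ω t ∈ C := ht
    rw [hC, hsetJ] at h1
    exact (hT₂ t).2 (alg_iff_up.2 h1)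
  · intro w w' hw' h
    obtain ⟨c, hc⟩ := leaf hy hk hO2 hw' h
    refine ⟨c, c.2, ?_⟩
    exact hc
  · intro t ht hv
    let v₁ : Valuation T₁ O.ValueGroup := O.valuation.comap (algebraMap T₁ Ω)
    have hb := basis_low hx hT₁
    obtain ⟨c, hc⟩ := residue (v := v₁) hb (fun c hc => hkk c hc) (fun α hα => by
      have h1 := hO2 α hα
      have h2 : algebraMap T₁ Ω (lmon (fun i => (⟨x (en Jᶜ i), mem_of_hL hT₁ (en_mem Jᶜ i)⟩ : T₁))
          α) = lmon (fun i => x' (en Jᶜ i)) α := by
        unfold lmon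
        rw [map_prod]
        refine Finset.prod_congr rfl fun i _ => ?_
        rw [map_zpow₀]
        rfl
      show O.valuation (algebraMap T₁ Ω _) ≠ 1
      rw [h2]
      exact h1) (z := ⟨t, ht⟩) hv
    exact ⟨c, hc⟩

end

end Pool.Agent.H891.RG
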