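import Pool.Agent.H891.RG.Side

/-! The maps defined by the sections on the geometric generic fibres. -/

set_option autoImplicit false
set_option linter.overlappingInstances false
set_option linter.unusedSectionVars false

open FF IntermediateField Pool.Agent.W619.TW Pool.Agent.Y174 Pool.Agent.H891.KS

namespace Pool.Agent.H891.RG

section

variable (k : Type) {K : Type} [Field k] [Field K] [Algebra k K] {n : ℕ}

open scoped Classical in
/-- On the geometric generic fibre, the sections of `m (K + Δ) + b A` define a rational map whose
image has dimension at least `a`. -/
def FibImageDim (x : Fin n → K) (I : Finset (Fin n)) (δ' : FibDiv k x I) (S : Finset K)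
    (m b a : ℕ) : Prop :=
  ImageDim (BaseField k x I) (FibField k x I) I.card δ' (S.image (restrHom k x I)) m b a

open scoped Classical in
/-- On the geometric generic fibre, the sections of `m (K + Δ) + b A` define a birational map. -/
def FibImageBir (x : Fin n → K) (I : Finset (Fin n)) (δ' : FibDiv k x I) (S : Finset K)
    (m b : ℕ) : Prop :=
  ImageBir (BaseField k x I) (FibField k x I) I.card δ' (S.image (restrHom k x I)) m b

end

end Pool.Agent.H891.RG
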