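import Pool.Agent.H891.RG.FDefs
import Pool.Agent.H891.RG.Desc

/-! The equality case: the maps defined by the sections. -/

set_option autoImplicit false
set_option linter.overlappingInstances false
set_option linter.unusedSectionVars false

open FF IntermediateField Pool.Agent.W619.PQ Pool.Agent.W619.PL Pool.Agent.W619.TW
  Pool.Agent.W603.LV Pool.Agent.W619.Y Pool.Agent.Y174 Pool.Agent.Y173.QA Pool.Agent.H891.KS

namespace Pool.Agent.H891.RG

section

variable {k K : Type} [Field k] [CharZero k] [Field K] [Algebra k K] {n : ℕ}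

open scoped Classical in
/-- `fib_side` for the geometric generic fibre. -/
theorem side (hess : Algebra.EssFiniteType k K) (hn : Algebra.trdeg k K = n)
    {x : Fin n → K} (hx : IsTranscendenceBasis k x) (I : Finset (Fin n)) (hI : I.Nonempty)
    {δ : Place k K → ℝ} {δ' : FibDiv k x I} (hδ : IsRestr k x I δ δ') {S : Finset K} {m b N : ℕ}
    (hmax : ∀ N', FibIndep k x I δ' S m b N' → N' ≤ N) {c : Fin N → K} {w : K} (hw : w ≠ 0)
    (hsec : ∀ i, PairSec k K n δ S m b (frm k x m (c i * w)))
    (hc : LinearIndependent (LL (k := k) x I) c) (i₀ : Fin N) :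
    (∀ a, FibImageDim k x I δ' S m b a → ∃ e : Fin a → Fin N,
      AlgebraicIndependent (LL (k := k) x I) fun l => c (e l) / c i₀) ∧
    (FibImageBir k x I δ' S m b →
      IntermediateField.adjoin (LL (k := k) x I) (Set.range fun i => c i / c i₀) = ⊤) := by
  have hmem : ∀ z : LL (k := k) x I, algebraMap K (AlgebraicClosure K) z ∈ Base k x I := by
    intro z
    have h1 : IsAlgebraic (IntermediateField.adjoin k (x '' {i | i ∉ I})) (z : K) :=
      mem_algebraicClosure_iff.1 z.2
    exact mem_algebraicClosure_iff.2 h1.algebraMap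
  let _ : Algebra (LL (k := k) x I) (BaseField k x I) :=
    (((algebraMap K (AlgebraicClosure K)).comp (algebraMap (LL (k := k) x I) K)).codRestrict
      (Base k x I).toSubring hmem).toAlgebra
  have _ : IsScalarTower (LL (k := k) x I) (BaseField k x I) (FibField k x I) :=
    IsScalarTower.of_algebraMap_eq fun z => rfl
  have _ : IsScalarTower k K (FibField k x I) := IsScalarTower.of_algebraMap_eq fun c =>
    Subtype.ext (IsScalarTower.algebraMap_apply k K (AlgebraicClosure K) c)
  have _ : IsScalarTower k (LL (k := k) x I) (BaseField k x I) := IsScalarTower.of_algebraMap_eq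
    fun c => Subtype.ext (IsScalarTower.algebraMap_apply k K (AlgebraicClosure K) c)
  have _ : Algebra.IsAlgebraic (LL (k := k) x I) (BaseField k x I) := by
    refine ⟨fun z => ?_⟩
    have h1 : IsAlgebraic (IntermediateField.adjoin k (x '' {i | i ∉ I}))
        (algebraMap (BaseField k x I) (AlgebraicClosure K) z) :=
      mem_algebraicClosure_iff.1 (show (z : Base k x I).1 ∈ _ from z.2)
    have h2 : IntermediateField.adjoin k (x '' {i | i ∉ I}) ≤ LL (k := k) x I := by
      intro w hw
      exact mem_algebraicClosure_iff.2 (isAlgebraic_algebraMap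
        (⟨w, hw⟩ : IntermediateField.adjoin k (x '' {i | i ∉ I})))
    have h3 : IsAlgebraic (LL (k := k) x I)
        (algebraMap (BaseField k x I) (AlgebraicClosure K) z) :=
      isAlg_of_hom (IntermediateField.inclusion h2).toRingHom
        (IntermediateField.inclusion h2).injective (fun a => rfl) h1
    have _ : IsScalarTower (LL (k := k) x I) (BaseField k x I) (AlgebraicClosure K) :=
      IsScalarTower.of_algebraMap_eq fun z => rfl
    exact (isAlgebraic_algebraMap_iff (S := BaseField k x I) (A := AlgebraicClosure K)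
      (algebraMap (BaseField k x I) (AlgebraicClosure K)).injective).1 h3
  have hgenF : IntermediateField.adjoin (BaseField k x I)
      (Set.range (algebraMap K (FibField k x I))) = ⊤ := by
    rw [eq_top_iff]
    intro z _
    have h1 : IntermediateField.adjoin (BaseField k x I)
        (Set.range (algebraMap K (AlgebraicClosure K))) ≤
        (IntermediateField.adjoin (BaseField k x I)
          (Set.range (algebraMap K (FibField k x I)))).map (Fib k x I).val := by
      rw [IntermediateField.adjoin_le_iff]
      rintro _ ⟨a, rfl⟩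
      exact ⟨algebraMap K (FibField k x I) a, IntermediateField.subset_adjoin _ _ ⟨a, rfl⟩, rfl⟩
    obtain ⟨w, hw, hwz⟩ := h1 z.2
    have : w = z := Subtype.ext hwz
    rwa [this] at hw
  have hmemJ : ∀ i ∉ I, x i ∈ LL (k := k) x I := fun i hi => mem_LL.2
    (isAlgebraic_algebraMap (⟨x i, Algebra.subset_adjoin ⟨i, hi, rfl⟩⟩ :
      Algebra.adjoin k (x '' {i | i ∉ I})))
  have hcl : ∀ z : K, IsIntegral (LL (k := k) x I) z →
      ∃ y : LL (k := k) x I, algebraMap (LL (k := k) x I) K y = z := by
    intro z hz
    have hRL : Algebra.adjoin k (x '' {i | i ∉ I}) ≤ (LL (k := k) x I).toSubalgebra := by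
      rw [Algebra.adjoin_le_iff]
      rintro _ ⟨i, hi, rfl⟩
      exact hmemJ i hi
    exact ⟨⟨z, closed_of _ (LL (k := k) x I) (fun z => mem_LL) hRL hz⟩, rfl⟩
  obtain ⟨hA, hB⟩ := fib_side hess hn hx I hI (LL (k := k) x I) (fun z => mem_LL) hgenF hδ hmax hw
    hsec hc i₀
  have hL0 : CharZero (LL (k := k) x I) :=
    charZero_of_injective_algebraMap (algebraMap k (LL (k := k) x I)).injective
  have _ : IsScalarTower (LL (k := k) x I) K (FibField k x I) :=
    IsScalarTower.of_algebraMap_eq fun z => rfl
  exact ⟨hA, fun h => desc_gen (Λ := BaseField k x I) (F := FibField k x I) hcl _ (hB h)⟩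

end

end Pool.Agent.H891.RG
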