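import Pool.Agent.H891.RG.Sec

/-! Restriction of sections to the geometric generic fibre, as forms in the coordinates. -/

set_option autoImplicit false
set_option linter.overlappingInstances false
set_option linter.unusedSectionVars false

open FF IntermediateField Pool.Agent.W619.PQ Pool.Agent.W619.PL Pool.Agent.W619.TW
  Pool.Agent.W603.LV Pool.Agent.W619.Y Pool.Agent.Y174 Pool.Agent.Y173.QA Pool.Agent.H891.KS

namespace Pool.Agent.H891.RG

section

variable {k K : Type} [Field k] [CharZero k] [Field K] [Algebra k K]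

theorem restr_forms (hess : Algebra.EssFiniteType k K) {n : ℕ} (hn : Algebra.trdeg k K = n)
    {y : Fin n → K} (hy : IsTranscendenceBasis k y) (I : Finset (Fin n)) (hI : I.Nonempty)
    (L : IntermediateField k K)
    (hL : ∀ x, x ∈ L ↔ IsAlgebraic (Algebra.adjoin k (y '' {i | i ∉ I})) x)
    {Λ F : Type} [Field Λ] [Field F] [Algebra L Λ] [Algebra Λ F] [Algebra K F]
    [IsScalarTower L Λ F] [Algebra k Λ] [Algebra k F] [IsScalarTower k Λ F]
    [IsScalarTower k K F] [IsScalarTower k L Λ] [Algebra.IsAlgebraic L Λ]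
    (hgenF : IntermediateField.adjoin Λ (Set.range (algebraMap K F)) = ⊤)
    {δ : Place k K → ℝ} {δ' : Place Λ F → ℝ} (hδ : IsPullFib δ δ') [DecidableEq F] :
    ∃ z : Fin I.card → F, IsTranscendenceBasis Λ z ∧ ∀ (S : Finset K) (m b : ℕ) (w : K),
      PairSec k K n δ S m b (frm k y m w) →
      PairSec Λ F I.card δ' (S.image (algebraMap K F)) m b (frm Λ z m (algebraMap K F w)) := by
  classical
  obtain ⟨E, hE⟩ := Pool.Agent.W636.PG.exists_duals k K n _ hy
  obtain ⟨r, hr⟩ : ∃ r, I.card = r + 1 := ⟨I.card - 1, by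
    have := hI.card_pos
    omega⟩
  obtain ⟨d, hd⟩ : ∃ d, Iᶜ.card = d := ⟨_, rfl⟩
  have hnd : n = d + (r + 1) := by
    have h1 := Finset.card_add_card_compl I
    rw [Fintype.card_fin] at h1
    omega
  subst hnd
  rw [hr]
  let e : Fin (d + (r + 1)) ≃ Fin (d + (r + 1)) :=
    finSumFinEquiv.symm.trans (finSumEquivOfFinset (s := Iᶜ) hd (by rw [compl_compl]; exact hr))
  have he1 : ∀ i : Fin d, e (Fin.castAdd (r + 1) i) ∉ I := by
    intro i
    have h1 : e (Fin.castAdd (r + 1) i) ∈ Iᶜ := by
      simp only [e, Equiv.trans_apply, finSumFinEquiv_symm_apply_castAdd,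
        finSumEquivOfFinset_inl]
      exact Finset.orderEmbOfFin_mem _ _ _
    exact Finset.mem_compl.1 h1
  have he2 : ∀ i : Fin (r + 1), e (Fin.natAdd d i) ∈ I := by
    intro i
    have h1 : e (Fin.natAdd d i) ∈ Iᶜᶜ := by
      simp only [e, Equiv.trans_apply, finSumFinEquiv_symm_apply_natAdd,
        finSumEquivOfFinset_inr]
      exact Finset.orderEmbOfFin_mem _ _ _
    rwa [compl_compl] at h1
  have hmemJ : ∀ i ∉ I, y i ∈ L := fun i hi => (hL _).2
    (isAlgebraic_algebraMap (⟨y i, Algebra.subset_adjoin ⟨i, hi, rfl⟩⟩ :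
      Algebra.adjoin k (y '' {i | i ∉ I})))
  let t : Fin d → L := fun i => ⟨y (e (Fin.castAdd (r + 1) i)), hmemJ _ (he1 i)⟩
  let x : Fin (r + 1) → K := fun i => y (e (Fin.natAdd d i))
  have happ : (Fin.append (algebraMap L K ∘ t) x : Fin (d + (r + 1)) → K) = fun i => y (e i) := by
    funext i
    refine Fin.addCases (fun i => ?_) (fun i => ?_) i
    · rw [Fin.append_left]
      rfl
    · rw [Fin.append_right]
  have hye : IsTranscendenceBasis k fun i => y (e i) := hy.comp_equiv e
  have ht0 : AlgebraicIndependent k t := by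
    rw [← L.val.algebraicIndependent_iff Subtype.val_injective]
    exact hye.1.comp (Fin.castAdd (r + 1)) (Fin.castAdd_injective _ _)
  have hrange : (Set.range fun i => (t i : K)) = y '' {i | i ∉ I} := by
    ext z
    constructor
    · rintro ⟨i, rfl⟩
      exact ⟨_, he1 i, rfl⟩
    · rintro ⟨i, hi, rfl⟩
      obtain ⟨j, rfl⟩ := e.surjective i
      refine Fin.addCases (fun j hi => ?_) (fun j hi => ?_) j hi
      · exact ⟨j, rfl⟩
      · exact (hi (he2 j)).elim
  have ht : IsTranscendenceBasis k t := by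
    rw [isTranscendenceBasis_iff_algebraicIndependent_isAlgebraic]
    refine ⟨ht0, ⟨fun z => alg_down L ht0 ?_⟩⟩
    rw [hrange]
    exact (hL _).1 z.2
  have hLd : Algebra.trdeg k L = d := by
    have h1 := ht.cardinalMk_eq_trdeg
    rw [← h1, Cardinal.mk_fin]
  have hLK := trdeg_LK (L := L) hLd hn
  have hx : IsTranscendenceBasis L x := by
    have halg : Algebra.IsAlgebraic (Algebra.adjoin L (Set.range x)) K := by
      refine ⟨fun z => ?_⟩
      have hz : IsAlgebraic (Algebra.adjoin k (Set.range fun i => y (e i))) z :=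
        hye.isAlgebraic.isAlgebraic z
      have hsub : Algebra.adjoin k (Set.range fun i => y (e i)) ≤
          (Algebra.adjoin L (Set.range x)).restrictScalars k := by
        rw [Algebra.adjoin_le_iff]
        rintro _ ⟨i, rfl⟩
        refine Fin.addCases (fun i => ?_) (fun i => ?_) i
        · exact Subalgebra.algebraMap_mem _ (t i)
        · exact Algebra.subset_adjoin ⟨i, rfl⟩
      exact isAlg_of_hom (Subalgebra.inclusion hsub).toRingHom
        (Subalgebra.inclusion_injective hsub) (fun a => rfl) hz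
    refine Algebra.IsAlgebraic.isTranscendenceBasis_of_lift_le_trdeg_of_finite L x ?_
    rw [hLK]
    simp
  have hE' : ∀ i j, E (e i) (Fin.append (algebraMap L K ∘ t) x j) = if i = j then 1 else 0 := by
    intro i j
    rw [happ, hE]
    simp only [EmbeddingLike.apply_eq_iff_eq]
  have halg : Algebra.IsAlgebraic K F := alg_KF (L := L) hgenF
  have hLL : Algebra.trdeg L K = (r + 1 : ℕ) := hLK
  refine ⟨fun i => algebraMap K F (x i), basis_F hLL hgenF hx, fun S m b w hw => ?_⟩
  have h1 := res_sec (Λ := Λ) hess hn ht hx (E := fun i => E (e i)) hE' hδ hw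
  have hcs : ((Equiv.Perm.sign e : ℤ) : K) ^ m * ((Equiv.Perm.sign e : ℤ) : K) ^ m = 1 := by
    rcases Int.units_eq_one_or (Equiv.Perm.sign e) with h | h <;> rw [h] <;> simp [← mul_pow]
  have h2 : frm k y m w (fun i => E (e i)) = ((Equiv.Perm.sign e : ℤ) : K) ^ m * w := by
    rw [perm_det hw.1 e E, frm_E hE]
  rw [h2] at h1
  have hΛ0 : CharZero Λ := charZero_of_injective_algebraMap (algebraMap k Λ).injective
  have h3 := sec_comb (ι := Unit) (fun _ => h1) (fun _ => ((Equiv.Perm.sign e : ℤ) : Λ) ^ m)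
  rw [Fintype.sum_unique] at h3
  have h4 : (((Equiv.Perm.sign e : ℤ) : Λ) ^ m • fun D : Fin (r + 1) → Derivation Λ F F =>
      (Matrix.of fun a b => D a (algebraMap K F (x b))).det ^ m *
        algebraMap K F (((Equiv.Perm.sign e : ℤ) : K) ^ m * w)) =
      frm Λ (fun i => algebraMap K F (x i)) m (algebraMap K F w) := by
    funext D
    show (((Equiv.Perm.sign e : ℤ) : Λ) ^ m) • ((Matrix.of fun a b =>
      D a (algebraMap K F (x b))).det ^ m *
        algebraMap K F (((Equiv.Perm.sign e : ℤ) : K) ^ m * w)) =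
      (Matrix.of fun a b => D a (algebraMap K F (x b))).det ^ m * algebraMap K F w
    rw [Algebra.smul_def, map_pow, map_intCast, map_mul, map_pow, map_intCast]
    have h5 : ((Equiv.Perm.sign e : ℤ) : F) ^ m * ((Equiv.Perm.sign e : ℤ) : F) ^ m = 1 := by
      have h6 := congrArg (algebraMap K F) hcs
      rwa [map_mul, map_pow, map_intCast, map_one] at h6
    linear_combination ((Matrix.of fun a b => D a (algebraMap K F (x b))).det ^ m *
      algebraMap K F w) * h5
  rw [h4] at h3
  exact h3

end

end Pool.Agent.H891.RG
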