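import Pool.Agent.H891.KS.Val2

/-! Spaces of functions and two independent subfields: one valuation. -/

set_option autoImplicit false

open Pool.Agent.H891.KS

namespace Pool.Agent.H891.RG

section abstract_distinct

variable {k V Γ : Type*} [Field k] [AddCommGroup V] [Module k V] [LinearOrder Γ]

/-- A family with distinct values. -/
theorem exists_distinct_of (v : V → Γ) (W : Submodule k V) [FiniteDimensional k W]
    (leaf : ∀ w ∈ W, ∀ w' ∈ W, w' ≠ 0 → v w = v w' → ∃ c : k, v (w - c • w') < v w) :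
    ∀ N : ℕ, N ≤ Module.finrank k W → ∃ w : Fin N → V, (∀ l, w l ∈ W) ∧ (∀ l, w l ≠ 0) ∧
      Function.Injective fun l => v (w l) := by
  classical
  intro N
  induction N with
  | zero => exact fun _ => ⟨Fin.elim0, fun l => l.elim0, fun l => l.elim0, fun l => l.elim0⟩
  | succ N ih =>
    intro hN
    obtain ⟨w, hwW, hw0, hinj⟩ := ih (Nat.le_of_succ_le hN)
    have hspan : Submodule.span k (Set.range w) ≤ W :=
      Submodule.span_le.2 (Set.range_subset_iff.2 hwW)
    have hex : ∃ x ∈ W, x ∉ Submodule.span k (Set.range w) := by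
      by_contra hcon
      push Not at hcon
      have h1 : W = Submodule.span k (Set.range w) := le_antisymm hcon hspan
      have h2 : Module.finrank k W ≤ N := by
        rw [h1]
        exact (finrank_range_le_card w).trans (by rw [Fintype.card_fin])
      omega
    have key : ∀ m : ℕ, ∀ x ∈ W, x ∉ Submodule.span k (Set.range w) →
        (Finset.univ.filter fun l => v (w l) ≤ v x).card ≤ m →
        ∃ x ∈ W, x ≠ 0 ∧ ∀ l, v (w l) ≠ v x := by
      intro m
      induction m with
      | zero =>
        intro x hx hxs hm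
        refine ⟨x, hx, fun h => hxs (h ▸ Submodule.zero_mem _), fun l hl => ?_⟩
        have h1 : l ∈ (Finset.univ.filter fun l => v (w l) ≤ v x) :=
          Finset.mem_filter.2 ⟨Finset.mem_univ _, hl.le⟩
        rw [Finset.card_eq_zero.1 (Nat.le_zero.1 hm)] at h1
        exact absurd h1 (Finset.notMem_empty _)
      | succ m ihm =>
        intro x hx hxs hm
        by_cases hd : ∀ l, v (w l) ≠ v x
        · exact ⟨x, hx, fun h => hxs (h ▸ Submodule.zero_mem _), hd⟩
        push Not at hd
        obtain ⟨l, hl⟩ := hd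
        obtain ⟨c, hc⟩ := leaf x hx (w l) (hwW l) (hw0 l) hl.symm
        refine ihm (x - c • w l) (W.sub_mem hx (W.smul_mem c (hwW l))) (fun h => hxs ?_) ?_
        · have h1 := Submodule.add_mem _ h
            (Submodule.smul_mem _ c (Submodule.subset_span (Set.mem_range_self l)))
          rwa [sub_add_cancel] at h1
        · refine Nat.le_of_lt_succ (lt_of_lt_of_le (Finset.card_lt_card ?_) hm)
          refine Finset.ssubset_iff_subset_ne.2 ⟨fun i hi => ?_, fun h => ?_⟩
          · exact Finset.mem_filter.2 ⟨Finset.mem_univ _, ((Finset.mem_filter.1 hi).2).trans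
              hc.le⟩
          · have h1 : l ∈ (Finset.univ.filter fun l => v (w l) ≤ v x) :=
              Finset.mem_filter.2 ⟨Finset.mem_univ _, hl.le⟩
            rw [← h] at h1
            have h2 := (Finset.mem_filter.1 h1).2
            rw [hl] at h2
            exact absurd hc (not_lt.2 h2)
    obtain ⟨x0, hx0, hx0s⟩ := hex
    obtain ⟨x, hx, hxne, hxd⟩ := key _ x0 hx0 hx0s le_rfl
    refine ⟨Fin.cons x w, fun l => ?_, fun l => ?_, ?_⟩
    · refine Fin.cases ?_ (fun l => ?_) l
      · exact hx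
      · exact hwW l
    · refine Fin.cases ?_ (fun l => ?_) l
      · exact hxne
      · exact hw0 l
    · intro a b
      refine Fin.cases ?_ (fun a => ?_) a
      · refine Fin.cases (fun _ => rfl) (fun b h => ?_) b
        simp only [Fin.cons_zero, Fin.cons_succ] at h
        exact (hxd b h.symm).elim
      · refine Fin.cases (fun h => ?_) (fun b h => ?_) b
        · simp only [Fin.cons_zero, Fin.cons_succ] at h
          exact (hxd a h).elim
        · simp only [Fin.cons_succ] at h
          rw [hinj h]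

end abstract_distinct

section

variable {k K Ω Γ : Type*} [Field k] [Field K] [Field Ω] [Algebra k K] [Algebra K Ω]
  [LinearOrderedCommGroupWithZero Γ]

/-- The valuation `v` is trivial on the field `C` over `T₂`, with the residue field `C`, and the
residue field of its restriction to `T₁` is `k`. -/
structure HalfVal (v : Valuation Ω Γ) (T₁ T₂ : IntermediateField k K) (C : Subfield Ω) : Prop where
  triv : ∀ c ∈ C, c ≠ 0 → v c = 1
  mem : ∀ t ∈ T₂, algebraMap K Ω t ∈ C
  back : ∀ t : K, algebraMap K Ω t ∈ C → t ∈ T₂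
  leaf : ∀ w w' : Ω, w' ≠ 0 → v w = v w' → ∃ c ∈ C, v (w - c * w') < v w
  res : ∀ t ∈ T₁, v (algebraMap K Ω t) = 1 →
    ∃ c : k, v (algebraMap K Ω (t - algebraMap k K c)) < 1

variable {v : Valuation Ω Γ} {T₁ T₂ : IntermediateField k K} {C : Subfield Ω}

namespace HalfVal

/-- the restriction of the valuation to `K` -/
noncomputable abbrev vK (v : Valuation Ω Γ) (K : Type*) [Field K] [Algebra K Ω] : Valuation K Γ :=
  v.comap (algebraMap K Ω)

theorem trivT (H : HalfVal v T₁ T₂ C) {t : K} (ht : t ∈ T₂) (ht0 : t ≠ 0) : vK v K t = 1 :=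
  H.triv _ (H.mem t ht) ((map_ne_zero _).2 ht0)

theorem trivk (H : HalfVal v T₁ T₂ C) {c : k} (hc : c ≠ 0) : vK v K (algebraMap k K c) = 1 :=
  H.trivT (T₂.algebraMap_mem c) ((map_ne_zero _).2 hc)

theorem smul_le (H : HalfVal v T₁ T₂ C) (c : k) (w : K) : vK v K (c • w) ≤ vK v K w := by
  rw [Algebra.smul_def, map_mul]
  rcases eq_or_ne c 0 with rfl | hc
  · rw [map_zero, map_zero, zero_mul]
    exact zero_le
  · rw [H.trivk hc, one_mul]

theorem res' (H : HalfVal v T₁ T₂ C) {t : K} (ht : t ∈ T₁) (h1 : vK v K t ≤ 1) :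
    ∃ c : k, vK v K (t - algebraMap k K c) < 1 := by
  rcases lt_or_eq_of_le h1 with h | h
  · exact ⟨0, by rwa [map_zero, sub_zero]⟩
  · exact H.res t ht h

/-- leaves in `T₁` -/
theorem leafT (H : HalfVal v T₁ T₂ C) {w w' : K} (hw : w ∈ T₁) (hw' : w' ∈ T₁) (h0 : w' ≠ 0)
    (h : vK v K w = vK v K w') : ∃ c : k, vK v K (w - c • w') < vK v K w := by
  have hvw' : vK v K w' ≠ 0 := (Valuation.ne_zero_iff _).2 h0
  obtain ⟨c, hc⟩ := H.res' (T₁.div_mem hw hw') (t := w / w') (by
    rw [map_div₀, h, div_self hvw'])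
  refine ⟨c, ?_⟩
  have h1 : w - c • w' = (w / w' - algebraMap k K c) * w' := by
    rw [sub_mul, div_mul_cancel₀ _ h0, Algebra.smul_def]
  rw [h1, map_mul, h]
  calc vK v K (w / w' - algebraMap k K c) * vK v K w' < 1 * vK v K w' :=
        mul_lt_mul_of_pos_right hc (zero_lt_iff.2 hvw')
    _ = vK v K w' := one_mul _

/-- The layers. -/
theorem layer (H : HalfVal v T₁ T₂ C) {ι : Type*} [Fintype ι] {u : ι → K} {a : Γ} (ha : a ≠ 0)
    (hu : ∀ i, vK v K (u i) ≤ a) (hli : ∀ c : ι → k, vK v K (∑ i, c i • u i) < a → c = 0) :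
    LinearIndependent T₁ u := by
  classical
  rw [Fintype.linearIndependent_iff]
  intro g hg
  by_contra hcon
  push Not at hcon
  obtain ⟨i1, hi1⟩ := hcon
  obtain ⟨i0, -, hmax⟩ := Finset.univ.exists_max_image (fun i => vK v K (g i : K))
    ⟨i1, Finset.mem_univ _⟩
  have hg0 : (g i0 : K) ≠ 0 := by
    intro h
    have h1 := hmax i1 (Finset.mem_univ _)
    rw [h, map_zero] at h1
    have h2 : (g i1 : K) = 0 := by
      by_contra h3
      exact absurd h1 (not_le.2 (zero_lt_iff.2 ((Valuation.ne_zero_iff _).2 h3)))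
    exact hi1 (Subtype.ext h2)
  have hv0 : vK v K (g i0 : K) ≠ 0 := (Valuation.ne_zero_iff _).2 hg0
  have hex : ∀ i, ∃ c : k, vK v K ((g i : K) / g i0 - algebraMap k K c) < 1 := by
    intro i
    refine H.res' (T₁.div_mem (g i).2 (g i0).2) ?_
    rw [map_div₀]
    exact div_le_one_of_le₀ (hmax i (Finset.mem_univ _)) zero_le
  choose c hc using hex
  have hc0 : c i0 ≠ 0 := by
    intro h
    have h1 := hc i0
    rw [h, map_zero, sub_zero, div_self hg0, map_one] at h1
    exact lt_irrefl _ h1
  apply hc0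
  rw [hli c ?_]
  · rfl
  have h1 : ∑ i, c i • u i = ∑ i, -(((g i : K) / g i0 - algebraMap k K (c i)) * u i) := by
    have h2 : ∑ i, (g i : K) / g i0 * u i = 0 := by
      have h3 : ∑ i, (g i : K) * u i = 0 := by
        rw [← hg]
        exact Finset.sum_congr rfl fun i _ => rfl
      have h4 : ∑ i, (g i : K) / g i0 * u i = (∑ i, (g i : K) * u i) / g i0 := by
        rw [Finset.sum_div]
        exact Finset.sum_congr rfl fun i _ => by ring
      rw [h4, h3, zero_div]
    rw [Finset.sum_neg_distrib, eq_neg_iff_add_eq_zero, ← Finset.sum_add_distrib]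
    rw [← h2]
    refine Finset.sum_congr rfl fun i _ => ?_
    rw [Algebra.smul_def]
    ring
  rw [h1]
  refine Valuation.map_sum_lt _ ha fun i _ => ?_
  rw [Valuation.map_neg, map_mul]
  calc vK v K ((g i : K) / g i0 - algebraMap k K (c i)) * vK v K (u i)
      ≤ vK v K ((g i : K) / g i0 - algebraMap k K (c i)) * a := mul_le_mul_right (hu i) _
    _ < 1 * a := mul_lt_mul_of_pos_right (hc i) (zero_lt_iff.2 ha)
    _ = a := one_mul _

/-- the elements of value less than `a` -/
def below (H : HalfVal v T₁ T₂ C) (U : Submodule k K) (a : Γ) (ha : a ≠ 0) : Submodule k K where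
  carrier := {w | w ∈ U ∧ vK v K w < a}
  add_mem' := fun h h' => ⟨U.add_mem h.1 h'.1, (Valuation.map_add_lt _ h.2 h'.2)⟩
  zero_mem' := ⟨U.zero_mem, by rw [map_zero]; exact zero_lt_iff.2 ha⟩
  smul_mem' := fun c _ h => ⟨U.smul_mem c h.1, (H.smul_le c _).trans_lt h.2⟩

/-- the elements of value at most `a` -/
def level (H : HalfVal v T₁ T₂ C) (U : Submodule k K) (a : Γ) : Submodule k K where
  carrier := {w | w ∈ U ∧ vK v K w ≤ a}
  add_mem' := fun h h' => ⟨U.add_mem h.1 h'.1, (Valuation.map_add_le _ h.2 h'.2)⟩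
  zero_mem' := ⟨U.zero_mem, by rw [map_zero]; exact zero_le⟩
  smul_mem' := fun c _ h => ⟨U.smul_mem c h.1, (H.smul_le c _).trans h.2⟩

theorem layer_rank (H : HalfVal v T₁ T₂ C) (W U : Submodule k K) [FiniteDimensional k W]
    (hUW : U ≤ W) {a : Γ} (ha : a ≠ 0) (hU : ∀ u ∈ U, vK v K u ≤ a) :
    Module.finrank k U ≤ Module.finrank T₁ (Submodule.span T₁ (W : Set K)) +
      Module.finrank k (H.below U a ha) := by
  classical
  have hUfin : FiniteDimensional k U := Submodule.finiteDimensional_of_le hUW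
  have hbU : H.below U a ha ≤ U := fun w hw => hw.1
  let P : Submodule k U := (H.below U a ha).comap U.subtype
  have hP : Module.finrank k P = Module.finrank k (H.below U a ha) :=
    LinearEquiv.finrank_eq (Submodule.comapSubtypeEquivOfLe hbU)
  have h1 := Submodule.finrank_quotient_add_finrank P
  rw [← h1, hP]
  refine Nat.add_le_add_right ?_ _
  let bas := Module.finBasis k (U ⧸ P)
  have hlift : ∀ i, ∃ u : U, P.mkQ u = bas i := fun i => Submodule.mkQ_surjective P _
  choose u hu using hlift
  have hli : LinearIndependent T₁ fun i => (u i : K) := by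
    refine H.layer ha (fun i => hU _ (u i).2) fun c hc => ?_
    have h2 : P.mkQ (∑ i, c i • u i) = 0 := by
      rw [Submodule.mkQ_apply, Submodule.Quotient.mk_eq_zero]
      refine ⟨(∑ i, c i • u i).2, ?_⟩
      simpa using hc
    rw [map_sum] at h2
    simp only [map_smul, hu] at h2
    exact funext (Fintype.linearIndependent_iff.1 bas.linearIndependent c h2)
  have hfd : FiniteDimensional T₁ (Submodule.span T₁ (W : Set K)) := by
    obtain ⟨s, hs⟩ := (Submodule.fg_iff_finiteDimensional W).2 inferInstance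
    have h1 : Submodule.span T₁ (W : Set K) = Submodule.span T₁ (s : Set K) := by
      apply le_antisymm
      · rw [Submodule.span_le, ← hs]
        exact Submodule.span_subset_span k T₁ _
      · refine Submodule.span_mono ?_
        rw [← hs]
        exact Submodule.subset_span
    rw [h1]
    exact FiniteDimensional.span_of_finite _ s.finite_toSet
  have hlin' : LinearIndependent T₁ fun i =>
      (⟨(u i : K), Submodule.subset_span (hUW (u i).2)⟩ : Submodule.span T₁ (W : Set K)) := by
    apply LinearIndependent.of_comp (Submodule.subtype _)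
    exact hli
  have h2 := hlin'.fintype_card_le_finrank
  rwa [Fintype.card_fin] at h2


theorem fd_span (T : IntermediateField k K) (W : Submodule k K) [FiniteDimensional k W] :
    FiniteDimensional T (Submodule.span T (W : Set K)) := by
  obtain ⟨s, hs⟩ := (Submodule.fg_iff_finiteDimensional W).2 inferInstance
  have h1 : Submodule.span T (W : Set K) = Submodule.span T (s : Set K) := by
    apply le_antisymm
    · rw [Submodule.span_le, ← hs]
      exact Submodule.span_subset_span k T _
    · refine Submodule.span_mono ?_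
      rw [← hs]
      exact Submodule.subset_span
  rw [h1]
  exact FiniteDimensional.span_of_finite _ s.finite_toSet

/-- The chain of the layers. -/
theorem chain (H : HalfVal v T₁ T₂ C) (W : Submodule k K) [FiniteDimensional k W] :
    ∀ (N : ℕ) (s : Finset Γ) (a₀ : Γ), s.card = N + 1 → a₀ ∈ s → (∀ a ∈ s, a₀ ≤ a) →
      (∀ a ∈ s, a ≠ 0) → ∀ U : Submodule k K, U ≤ W → (∀ u ∈ U, u ≠ 0 → vK v K u ∈ s) →
      Module.finrank k U ≤ Module.finrank T₁ (Submodule.span T₁ (W : Set K)) * N +
        Module.finrank k (H.level U a₀) := by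
  classical
  intro N
  induction N with
  | zero =>
    intro s a₀ hs ha₀ hmin hne U hUW hU
    obtain ⟨b, hb⟩ := Finset.card_eq_one.1 hs
    have hUl : U ≤ H.level U a₀ := by
      intro u hu
      refine ⟨hu, ?_⟩
      rcases eq_or_ne u 0 with rfl | h0
      · rw [map_zero]; exact zero_le
      · have h1 := hU u hu h0
        rw [hb, Finset.mem_singleton] at h1 ha₀
        rw [h1, ha₀]
    have hfd : FiniteDimensional k U := Submodule.finiteDimensional_of_le hUW
    have hl : H.level U a₀ = U := le_antisymm (fun u hu => hu.1) hUl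
    rw [hl, Nat.mul_zero, zero_add]
  | succ N ih =>
    intro s a₀ hs ha₀ hmin hne U hUW hU
    obtain ⟨a, has, hmax⟩ := s.exists_max_image id ⟨a₀, ha₀⟩
    have haa : a₀ ≠ a := by
      rintro rfl
      have h1 : s ⊆ {a₀} := fun b hb => Finset.mem_singleton.2 (le_antisymm (hmax b hb) (hmin b hb))
      have h2 := Finset.card_le_card h1
      rw [Finset.card_singleton] at h2
      omega
    have ha0 : a ≠ 0 := hne a has
    have hUa : ∀ u ∈ U, vK v K u ≤ a := by
      intro u hu
      rcases eq_or_ne u 0 with rfl | h0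
      · rw [map_zero]; exact zero_le
      · exact hmax _ (hU u hu h0)
    have h1 := H.layer_rank W U hUW ha0 hUa
    have h2 := ih (s.erase a) a₀ (by rw [Finset.card_erase_of_mem has, hs]; rfl)
      (Finset.mem_erase.2 ⟨haa, ha₀⟩) (fun b hb => hmin b (Finset.mem_of_mem_erase hb))
      (fun b hb => hne b (Finset.mem_of_mem_erase hb)) (H.below U a ha0)
      (fun u hu => hUW hu.1) (fun u hu h0 => Finset.mem_erase.2 ⟨hu.2.ne, hU u hu.1 h0⟩)
    have h3 : H.level (H.below U a ha0) a₀ = H.level U a₀ := by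
      ext u
      constructor
      · intro h
        exact ⟨h.1.1, h.2⟩
      · intro h
        exact ⟨⟨h.1, h.2.trans_lt (lt_of_le_of_ne (hmin a has) haa)⟩, h.2⟩
    rw [h3] at h2
    rw [Nat.mul_succ]
    omega

/-- distinct values imply independence over `C` -/
theorem distinct_indep (H : HalfVal v T₁ T₂ C) {ι : Type*} {w : ι → Ω} (hw0 : ∀ i, w i ≠ 0)
    (hinj : Function.Injective fun i => v (w i)) : LinearIndependent C w := by
  classical
  rw [linearIndependent_iff']
  intro s g hg i hi
  by_contra hgi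
  let s' := s.filter fun i => g i ≠ 0
  have hs' : s'.Nonempty := ⟨i, Finset.mem_filter.2 ⟨hi, hgi⟩⟩
  have hgne : ∀ i ∈ s', (g i : Ω) ≠ 0 := fun i hi h => (Finset.mem_filter.1 hi).2 (Subtype.ext h)
  have hsum : ∑ i ∈ s', (g i : Ω) * w i = 0 := by
    rw [← hg, Finset.sum_filter_of_ne]
    · exact Finset.sum_congr rfl fun i _ => rfl
    · intro i _ h h0
      apply h
      rw [h0]
      simp
  obtain ⟨i, hi, j, hj, hij, hval⟩ := two_equal v hs'
    (fun i hi => mul_ne_zero (hgne i hi) (hw0 i)) hsum
  rw [map_mul, map_mul, H.triv _ (g i).2 (hgne i hi), H.triv _ (g j).2 (hgne j hj), one_mul,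
    one_mul] at hval
  exact hij (hinj hval)

theorem distinct_indepT (H : HalfVal v T₁ T₂ C) {ι : Type*} {w : ι → K} (hw0 : ∀ i, w i ≠ 0)
    (hinj : Function.Injective fun i => vK v K (w i)) : LinearIndependent T₂ w := by
  classical
  rw [linearIndependent_iff']
  intro s g hg i hi
  by_contra hgi
  let s' := s.filter fun i => g i ≠ 0
  have hs' : s'.Nonempty := ⟨i, Finset.mem_filter.2 ⟨hi, hgi⟩⟩
  have hgne : ∀ i ∈ s', (g i : K) ≠ 0 := fun i hi h => (Finset.mem_filter.1 hi).2 (Subtype.ext h)
  have hsum : ∑ i ∈ s', (g i : K) * w i = 0 := by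
    rw [← hg, Finset.sum_filter_of_ne]
    · exact Finset.sum_congr rfl fun i _ => rfl
    · intro i _ h h0
      apply h
      rw [h0]
      simp
  obtain ⟨i, hi, j, hj, hij, hval⟩ := two_equal (vK v K) hs'
    (fun i hi => mul_ne_zero (hgne i hi) (hw0 i)) hsum
  rw [map_mul, map_mul, H.trivT (g i).2 (hgne i hi), H.trivT (g j).2 (hgne j hj), one_mul,
    one_mul] at hval
  exact hij (hinj hval)

/-- Functions in `T₁` which are independent over `k` are independent over `T₂`. -/
theorem lin_disj (H : HalfVal v T₁ T₂ C) {ι : Type*} [Fintype ι] {u : ι → K}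
    (hu : ∀ i, u i ∈ T₁) (hli : LinearIndependent k u) : LinearIndependent T₂ u := by
  classical
  let U : Submodule k K := Submodule.span k (Set.range u)
  have hUT : ∀ w ∈ U, w ∈ T₁ := by
    intro w hw
    have h1 : U ≤ T₁.toSubalgebra.toSubmodule := by
      rw [Submodule.span_le]
      rintro _ ⟨i, rfl⟩
      exact hu i
    exact h1 hw
  have hfd : FiniteDimensional k U := FiniteDimensional.span_of_finite k (Set.finite_range _)
  have hrank : Module.finrank k U = Fintype.card ι := finrank_span_eq_card hli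
  obtain ⟨w, hwU, hw0, hinj⟩ := exists_distinct_of (vK v K) U
    (fun w hw w' hw' h0 h => H.leafT (hUT w hw) (hUT w' hw') h0 h) (Fintype.card ι) hrank.ge
  have h1 := H.distinct_indepT hw0 hinj
  rw [linearIndependent_iff_card_le_finrank_span]
  have h2 : ∀ l, w l ∈ Submodule.span T₂ (Set.range u) := fun l =>
    Submodule.span_subset_span k T₂ _ (hwU l)
  have hfd2 : FiniteDimensional T₂ (Submodule.span T₂ (Set.range u)) :=
    FiniteDimensional.span_of_finite _ (Set.finite_range _)
  have h3 : LinearIndependent T₂ fun l => (⟨w l, h2 l⟩ : Submodule.span T₂ (Set.range u)) := by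
    apply LinearIndependent.of_comp (Submodule.subtype _)
    exact h1
  have h4 := h3.fintype_card_le_finrank
  rwa [Fintype.card_fin] at h4

/-- the values of the elements of a space over `C` -/
theorem values (H : HalfVal v T₁ T₂ C) (M : Submodule C Ω) [FiniteDimensional C M] :
    ∃ s : Finset Γ, s.card ≤ Module.finrank C M ∧ (∀ a ∈ s, a ≠ 0) ∧
      ∀ m ∈ M, m ≠ 0 → v m ∈ s := by
  classical
  have key : ∀ r : ℕ, (∃ w : Fin r → Ω, (∀ l, w l ∈ M) ∧ (∀ l, w l ≠ 0) ∧
      Function.Injective fun l => v (w l)) → r ≤ Module.finrank C M := by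
    rintro r ⟨w, hwM, hw0, hinj⟩
    have h1 : LinearIndependent C fun l => (⟨w l, hwM l⟩ : M) := by
      apply LinearIndependent.of_comp (Submodule.subtype _)
      exact H.distinct_indep hw0 hinj
    have h2 := h1.fintype_card_le_finrank
    rwa [Fintype.card_fin] at h2
  let P : ℕ → Prop := fun r => ∃ w : Fin r → Ω, (∀ l, w l ∈ M) ∧ (∀ l, w l ≠ 0) ∧
      Function.Injective fun l => v (w l)
  have hP0 : P 0 := ⟨Fin.elim0, fun l => l.elim0, fun l => l.elim0, fun l => l.elim0⟩
  let r := Nat.findGreatest P (Module.finrank C M)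
  have hr : P r := Nat.findGreatest_spec (P := P) (Nat.zero_le _) hP0
  obtain ⟨w, hwM, hw0, hinj⟩ := hr
  refine ⟨Finset.univ.image fun l => v (w l), ?_, ?_, ?_⟩
  · refine (Finset.card_image_le).trans ?_
    rw [Finset.card_univ, Fintype.card_fin]
    exact Nat.findGreatest_le _
  · intro a ha
    obtain ⟨l, -, rfl⟩ := Finset.mem_image.1 ha
    exact (Valuation.ne_zero_iff _).2 (hw0 l)
  · intro m hm hm0
    by_contra hcon
    have hP : P (r + 1) := by
      refine ⟨Fin.cons m w, fun l => ?_, fun l => ?_, ?_⟩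
      · refine Fin.cases ?_ (fun l => ?_) l
        · exact hm
        · exact hwM l
      · refine Fin.cases ?_ (fun l => ?_) l
        · exact hm0
        · exact hw0 l
      · have hnot : ∀ l, v (w l) ≠ v m := fun l h =>
          hcon (Finset.mem_image.2 ⟨l, Finset.mem_univ _, h⟩)
        intro a b
        refine Fin.cases ?_ (fun a => ?_) a
        · refine Fin.cases (fun _ => rfl) (fun b h => ?_) b
          simp only [Fin.cons_zero, Fin.cons_succ] at h
          exact (hnot b h.symm).elim
        · refine Fin.cases (fun h => ?_) (fun b h => ?_) b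
          · simp only [Fin.cons_zero, Fin.cons_succ] at h
            exact (hnot a h).elim
          · simp only [Fin.cons_succ] at h
            rw [hinj h]
    have h1 := Nat.le_findGreatest (P := P) (key _ hP) hP
    exact absurd h1 (Nat.not_succ_le_self _)

/-- the space generated over `C` -/
theorem up_rank (H : HalfVal v T₁ T₂ C) (W : Submodule k K) [FiniteDimensional k W] :
    ∃ M : Submodule C Ω, FiniteDimensional C M ∧
      Module.finrank C M ≤ Module.finrank T₂ (Submodule.span T₂ (W : Set K)) ∧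
      ∀ w ∈ W, algebraMap K Ω w ∈ M := by
  classical
  have hfd := fd_span T₂ W
  let bas := Module.finBasis T₂ (Submodule.span T₂ (W : Set K))
  let M : Submodule C Ω := Submodule.span C (Set.range fun i => algebraMap K Ω (bas i : K))
  refine ⟨M, FiniteDimensional.span_of_finite _ (Set.finite_range _), ?_, fun w hw => ?_⟩
  · exact (finrank_range_le_card _).trans (by rw [Fintype.card_fin])
  · have h1 := bas.sum_repr ⟨w, Submodule.subset_span hw⟩
    have h2 : w = ∑ i, (bas.repr ⟨w, Submodule.subset_span hw⟩ i : K) * (bas i : K) := by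
      have h3 := (congrArg (Submodule.subtype _) h1).symm
      rw [map_sum] at h3
      exact h3
    rw [h2, map_sum]
    refine Submodule.sum_mem _ fun i _ => ?_
    rw [map_mul]
    exact Submodule.smul_mem M (⟨algebraMap K Ω _, H.mem _ (bas.repr _ i).2⟩ : C)
      (Submodule.subset_span ⟨i, rfl⟩)

/-- **The product inequality.** -/
theorem rank_le (H : HalfVal v T₁ T₂ C) (W : Submodule k K) [FiniteDimensional k W] :
    Module.finrank k W ≤ Module.finrank T₁ (Submodule.span T₁ (W : Set K)) *
      Module.finrank T₂ (Submodule.span T₂ (W : Set K)) := by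
  classical
  obtain ⟨M, hM, hMr, hWM⟩ := H.up_rank W
  obtain ⟨s, hs, hs0, hval⟩ := H.values M
  have hWs : ∀ w ∈ W, w ≠ 0 → vK v K w ∈ s := fun w hw h0 =>
    hval _ (hWM w hw) ((map_ne_zero _).2 h0)
  rcases s.eq_empty_or_nonempty with rfl | hne
  · have h1 : W = ⊥ := by
      rw [eq_bot_iff]
      intro w hw
      by_contra h0
      exact absurd (hWs w hw h0) (Finset.notMem_empty _)
    rw [h1, finrank_bot]
    exact Nat.zero_le _
  · obtain ⟨a₀, ha₀, hmin⟩ := s.exists_min_image id hne
    have hcard : s.card = (s.card - 1) + 1 := by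
      have := hne.card_pos
      omega
    have h1 := H.chain W (s.card - 1) s a₀ hcard ha₀ hmin hs0 W le_rfl hWs
    have h2 := H.layer_rank W (H.level W a₀) (fun w hw => hw.1) (hs0 a₀ ha₀) (fun w hw => hw.2)
    have h3 : Module.finrank k (H.below (H.level W a₀) a₀ (hs0 a₀ ha₀)) = 0 := by
      have : H.below (H.level W a₀) a₀ (hs0 a₀ ha₀) = ⊥ := by
        rw [eq_bot_iff]
        intro w hw
        by_contra h0
        exact absurd hw.2 (not_lt.2 (hmin _ (hWs w hw.1.1 h0)))
      rw [this, finrank_bot]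
    rw [h3, add_zero] at h2
    calc Module.finrank k W ≤ _ := h1
      _ ≤ Module.finrank T₁ (Submodule.span T₁ (W : Set K)) * (s.card - 1) +
          Module.finrank T₁ (Submodule.span T₁ (W : Set K)) := Nat.add_le_add_left h2 _
      _ = Module.finrank T₁ (Submodule.span T₁ (W : Set K)) * s.card := by
          rw [← Nat.mul_succ, Nat.succ_eq_add_one, ← hcard]
      _ ≤ _ := Nat.mul_le_mul_left _ (hs.trans hMr)

/-- **The deepest layer in the case of equality.** -/
theorem deepest (H : HalfVal v T₁ T₂ C) (W : Submodule k K) [FiniteDimensional k W]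
    (h0 : 0 < Module.finrank k W)
    (heq : Module.finrank k W = Module.finrank T₁ (Submodule.span T₁ (W : Set K)) *
      Module.finrank T₂ (Submodule.span T₂ (W : Set K))) :
    ∃ w₀ ∈ W, w₀ ≠ 0 ∧ (∀ w ∈ W, w ≠ 0 → vK v K w₀ ≤ vK v K w) ∧
      ∃ B : Submodule k K, (∀ b ∈ B, b ∈ T₂) ∧ (∀ b ∈ B, b * w₀ ∈ W) ∧ FiniteDimensional k B ∧
        Module.finrank T₁ (Submodule.span T₁ (W : Set K)) ≤ Module.finrank k B := by
  classical
  obtain ⟨M, hM, hMr, hWM⟩ := H.up_rank W
  obtain ⟨s, hs, hs0, hval⟩ := H.values M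
  have hWs : ∀ w ∈ W, w ≠ 0 → vK v K w ∈ s := fun w hw h0 =>
    hval _ (hWM w hw) ((map_ne_zero _).2 h0)
  have hne : s.Nonempty := by
    by_contra hcon
    rw [Finset.not_nonempty_iff_eq_empty] at hcon
    subst hcon
    have h1 : W = ⊥ := by
      rw [eq_bot_iff]
      intro w hw
      by_contra h0
      exact absurd (hWs w hw h0) (Finset.notMem_empty _)
    rw [h1, finrank_bot] at h0
    exact lt_irrefl _ h0
  obtain ⟨a₀, ha₀, hmin⟩ := s.exists_min_image id hne
  have hcard : s.card = (s.card - 1) + 1 := by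
    have := hne.card_pos
    omega
  have h1 := H.chain W (s.card - 1) s a₀ hcard ha₀ hmin hs0 W le_rfl hWs
  set h₁ := Module.finrank T₁ (Submodule.span T₁ (W : Set K)) with hh₁
  set h₂ := Module.finrank T₂ (Submodule.span T₂ (W : Set K)) with hh₂
  have h2 : h₁ ≤ Module.finrank k (H.level W a₀) := by
    have h3 : s.card ≤ h₂ := hs.trans hMr
    have h4 : h₁ * (s.card - 1) + h₁ ≤ h₁ * h₂ := by
      rw [← Nat.mul_succ, Nat.succ_eq_add_one, ← hcard]
      exact Nat.mul_le_mul_left _ h3
    omega
  have hh₁pos : 0 < h₁ := by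
    rcases Nat.eq_zero_or_pos h₁ with h | h
    · rw [heq, h, zero_mul] at h0
      exact (lt_irrefl _ h0).elim
    · exact h
  have hlfd : FiniteDimensional k (H.level W a₀) :=
    Submodule.finiteDimensional_of_le (S₂ := W) fun w hw => hw.1
  obtain ⟨w₀, hw₀, hw₀0⟩ := Submodule.exists_mem_ne_zero_of_ne_bot (p := H.level W a₀) (by
    intro h
    rw [h, finrank_bot] at h2
    omega)
  have hv₀ : vK v K w₀ = a₀ := le_antisymm hw₀.2 (hmin _ (hWs w₀ hw₀.1 hw₀0))
  have hratio : ∀ w ∈ H.level W a₀, w / w₀ ∈ T₂ := by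
    intro w hw
    rcases eq_or_ne w 0 with rfl | hw0
    · rw [zero_div]; exact T₂.zero_mem
    have hv : vK v K w = a₀ := le_antisymm hw.2 (hmin _ (hWs w hw.1 hw0))
    obtain ⟨c, hc, hlt⟩ := H.leaf (algebraMap K Ω w) (algebraMap K Ω w₀)
      ((map_ne_zero _).2 hw₀0) (hv.trans hv₀.symm)
    have h3 : algebraMap K Ω w - c * algebraMap K Ω w₀ = 0 := by
      by_contra hne0
      have h4 : algebraMap K Ω w - c * algebraMap K Ω w₀ ∈ M :=
        M.sub_mem (hWM w hw.1) (M.smul_mem (⟨c, hc⟩ : C) (hWM w₀ hw₀.1))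
      have h5 := hmin _ (hval _ h4 hne0)
      have h6 : v (algebraMap K Ω w) = a₀ := hv
      rw [h6] at hlt
      exact absurd hlt (not_lt.2 h5)
    apply H.back
    rw [map_div₀, sub_eq_zero.1 h3, mul_div_cancel_right₀ _ ((map_ne_zero _).2 hw₀0)]
    exact hc
  refine ⟨w₀, hw₀.1, hw₀0, fun w hw h0 => ?_, ?_⟩
  · rw [hv₀]
    exact hmin _ (hWs w hw h0)
  let B : Submodule k K := (H.level W a₀).map (LinearMap.mulRight k w₀⁻¹)
  have hB : ∀ b ∈ B, ∃ w ∈ H.level W a₀, w / w₀ = b := by
    rintro _ ⟨w, hw, rfl⟩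
    exact ⟨w, hw, div_eq_mul_inv _ _⟩
  refine ⟨B, fun b hb => ?_, fun b hb => ?_, ?_, ?_⟩
  · obtain ⟨w, hw, rfl⟩ := hB b hb
    exact hratio w hw
  · obtain ⟨w, hw, rfl⟩ := hB b hb
    rw [div_mul_cancel₀ _ hw₀0]
    exact hw.1
  · exact inferInstance
  · have hinj : Function.Injective (LinearMap.mulRight k w₀⁻¹ : K →ₗ[k] K) :=
      fun a b h => mul_right_cancel₀ (inv_ne_zero hw₀0) h
    have h3 := LinearEquiv.finrank_eq (Submodule.equivMapOfInjective
      (LinearMap.mulRight k w₀⁻¹ : K →ₗ[k] K) hinj (H.level W a₀))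
    rw [← h3]
    exact h2

end HalfVal

end

end Pool.Agent.H891.RG
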