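import Pool.Agent.H891.RG.Geo

/-! The structure of the pluricanonical systems in the case of equality. -/

set_option autoImplicit false
set_option linter.overlappingInstances false
set_option linter.unusedSectionVars false

open FF IntermediateField Pool.Agent.W619.PQ Pool.Agent.W619.PL Pool.Agent.W619.TW
  Pool.Agent.W603.LV Pool.Agent.W619.Y Pool.Agent.Y174 Pool.Agent.Y173.QA Pool.Agent.H891.KS

namespace Pool.Agent.H891.RG

section

variable {k K : Type} [Field k] [CharZero k] [Field K] [Algebra k K] {n : ℕ}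

/-- algebraically independent elements among the generators -/
theorem select {Λ F : Type} [Field Λ] [Field F] [Algebra Λ F] {N a : ℕ} (β : Fin N → F)
    {ρ : Fin a → F} (hρ : AlgebraicIndependent Λ ρ)
    (hmem : ∀ l, ρ l ∈ IntermediateField.adjoin Λ (Set.range β)) :
    ∃ e : Fin a → Fin N, AlgebraicIndependent Λ (β ∘ e) := by
  classical
  let M := IntermediateField.adjoin Λ (Set.range β)
  let β' : Fin N → M := fun i => ⟨β i, IntermediateField.subset_adjoin _ _ ⟨i, rfl⟩⟩
  have hlift : ∀ p ∈ Algebra.adjoin Λ (Set.range β), ∃ p' : Algebra.adjoin Λ (Set.range β'),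
      ((p' : M) : F) = p := by
    intro p hp
    have h1 : Algebra.adjoin Λ (Set.range β) = (Algebra.adjoin Λ (Set.range β')).map M.val := by
      rw [AlgHom.map_adjoin, ← Set.range_comp]
      rfl
    rw [h1] at hp
    obtain ⟨p', hp', rfl⟩ := hp
    exact ⟨⟨p', hp'⟩, rfl⟩
  have halg : Algebra.IsAlgebraic (Algebra.adjoin Λ (Set.range β')) M := by
    refine ⟨fun z => ?_⟩
    obtain ⟨p, hp, q, hq, hz⟩ := IntermediateField.mem_adjoin_iff_div.1 z.2
    obtain ⟨p', hp'⟩ := hlift p hp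
    obtain ⟨q', hq'⟩ := hlift q hq
    have h1 : z = (p' : M) * (q' : M)⁻¹ := by
      apply Subtype.ext
      rw [← div_eq_mul_inv]
      rw [hz, ← hp', ← hq']
      rfl
    rw [h1]
    exact (isAlgebraic_algebraMap p').mul (isAlgebraic_algebraMap q').inv
  obtain ⟨t, hts, ht⟩ := exists_isTranscendenceBasis_subset (R := Λ) (Set.range β')
  have htfin : Finite t := (Set.finite_range β').subset hts
  have hρ' : AlgebraicIndependent Λ fun l => (⟨ρ l, hmem l⟩ : M) := by
    rw [← M.val.algebraicIndependent_iff Subtype.val_injective]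
    exact hρ
  have hcard : a ≤ Nat.card t := by
    have h1 := hρ'.lift_cardinalMk_le_trdeg
    rw [Cardinal.mk_fin, Cardinal.lift_natCast, Cardinal.lift_uzero] at h1
    have h2 := ht.cardinalMk_eq_trdeg
    rw [← h2] at h1
    have h3 : Cardinal.mk t = (Nat.card t : ℕ) := (Nat.cast_card).symm
    rw [h3] at h1
    exact_mod_cast h1
  have _ := Fintype.ofFinite t
  rw [Nat.card_eq_fintype_card] at hcard
  let g : Fin a → t := fun i => (Fintype.equivFin t).symm (Fin.castLE hcard i)
  have hg : Function.Injective g := fun i j h =>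
    Fin.castLE_injective hcard ((Fintype.equivFin t).symm.injective h)
  have hex : ∀ i, ∃ j, β' j = (g i : M) := fun i => hts (g i).2
  choose e he using hex
  refine ⟨e, ?_⟩
  have h1 := ht.1.comp g hg
  have h2 := (M.val.algebraicIndependent_iff Subtype.val_injective).2 h1
  have h3 : β ∘ e = M.val ∘ ((fun z : t => (z : M)) ∘ g) := by
    funext i
    show β (e i) = ((g i : M) : F)
    rw [← he i]
  rw [h3]
  exact h2

/-- sections on the fibre as combinations of the restrictions -/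
theorem fib_values {Λ F : Type} [Field Λ] [CharZero Λ] [Field F] [Algebra Λ F] {r N : ℕ}
    {z : Fin r → F} (hz : IsTranscendenceBasis Λ z) {δ' : Place Λ F → ℝ} {S : Finset F}
    {m b : ℕ} {u : Fin N → F} (hu : ∀ i, PairSec Λ F r δ' S m b (frm Λ z m (u i)))
    (hli : LinearIndependent Λ u)
    (hmax : ∀ N', HasIndep Λ F r N' (PairSec Λ F r δ' S m b) → N' ≤ N)
    {η : (Fin r → Derivation Λ F F) → F} (hη : PairSec Λ F r δ' S m b η) :
    ∃ c : Fin N → Λ, η = frm Λ z m (∑ i, c i • u i) := by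
  obtain ⟨E', hE'⟩ := Pool.Agent.W636.PG.exists_duals Λ F r _ hz
  obtain ⟨c, hc⟩ := sec_span (frm_indep hE' hli) hu hmax hη
  exact ⟨c, by rw [hc, frm_sum]⟩

/-- ratios of sections on the fibre -/
theorem ratio_mem {Λ F : Type} [Field Λ] [Field F] [Algebra Λ F] {N : ℕ} {u : Fin N → F}
    {i₀ : Fin N} (hi₀ : u i₀ ≠ 0) (c c' : Fin N → Λ) :
    (∑ i, c i • u i) / (∑ i, c' i • u i) ∈
      IntermediateField.adjoin Λ (Set.range fun i => u i / u i₀) := by
  have h1 : ∀ c : Fin N → Λ, (∑ i, c i • u i) / u i₀ ∈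
      IntermediateField.adjoin Λ (Set.range fun i => u i / u i₀) := by
    intro c
    rw [Finset.sum_div]
    refine sum_mem fun i _ => ?_
    rw [smul_div_assoc]
    have h2 : u i / u i₀ ∈ IntermediateField.adjoin Λ (Set.range fun i => u i / u i₀) :=
      IntermediateField.subset_adjoin Λ _ (Set.mem_range_self i)
    exact IntermediateField.smul_mem _ h2
  have h2 : (∑ i, c i • u i) / (∑ i, c' i • u i) =
      ((∑ i, c i • u i) / u i₀) / ((∑ i, c' i • u i) / u i₀) := by
    rw [div_div_div_cancel_right₀ hi₀]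
  rw [h2]
  exact div_mem (h1 c) (h1 c')

end

section

variable {k K : Type} [Field k] [CharZero k] [Field K] [Algebra k K] {n : ℕ}

theorem mem_LL_compl {x : Fin n → K} {I : Finset (Fin n)} {z : K} :
    z ∈ LL (k := k) x Iᶜ ↔ IsAlgebraic (Algebra.adjoin k (x '' {i | i ∈ I})) z := by
  rw [mem_LL]
  have h1 : {i | i ∉ Iᶜ} = {i | i ∈ I} := by
    ext i
    simp
  rw [h1]

theorem mem_LL' {x : Fin n → K} {I : Finset (Fin n)} {z : K} :
    z ∈ LL (k := k) x I ↔ IsAlgebraic (Algebra.adjoin k (x '' {i | i ∈ Iᶜ})) z := by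
  rw [mem_LL]
  have h1 : {i | i ∈ Iᶜ} = {i | i ∉ I} := by
    ext i
    simp
  rw [h1]

variable [IsAlgClosed k]

theorem half₁ {x : Fin n → K} (hx : IsTranscendenceBasis k x) (I : Finset (Fin n)) :
    ∃ (O : ValuationSubring (AlgebraicClosure K)) (C : Subfield (AlgebraicClosure K)),
      HalfVal O.valuation (LL (k := k) x I) (LL (k := k) x Iᶜ) C :=
  exists_half hx I _ _ (fun _ => mem_LL') (fun _ => mem_LL_compl)

theorem half₂ {x : Fin n → K} (hx : IsTranscendenceBasis k x) (I : Finset (Fin n)) :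
    ∃ (O : ValuationSubring (AlgebraicClosure K)) (C : Subfield (AlgebraicClosure K)),
      HalfVal O.valuation (LL (k := k) x Iᶜ) (LL (k := k) x I) C := by
  refine exists_half hx Iᶜ _ _ (fun z => ?_) (fun _ => mem_LL')
  rw [mem_LL_compl, compl_compl]

open scoped Classical in
/-- the space of the values of a family of sections -/
theorem two_bound (hess : Algebra.EssFiniteType k K) {x : Fin n → K}
    (hx : IsTranscendenceBasis k x) {E : Fin n → Derivation k K K}
    (hE : ∀ i j, E i (x j) = if i = j then 1 else 0) {I : Finset (Fin n)} (hI : I.Nonempty)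
    (hI' : Iᶜ.Nonempty) {δ : Place k K → ℝ} {δ₁ : FibDiv k x I} {δ₂ : FibDiv k x Iᶜ}
    (hδ₁ : IsRestr k x I δ δ₁) (hδ₂ : IsRestr k x Iᶜ δ δ₂) {S : Finset K} {m b N N₁ N₂ : ℕ}
    (hN₁ : ∀ N', FibIndep k x I δ₁ S m b N' → N' ≤ N₁)
    (hN₂ : ∀ N', FibIndep k x Iᶜ δ₂ S m b N' → N' ≤ N₂)
    {ω : Fin N → (Fin n → Derivation k K K) → K} (hω : ∀ l, PairSec k K n δ S m b (ω l))
    (hli : LinearIndependent k ω) :
    Module.finrank k (Submodule.span k (Set.range fun l => ω l E)) = N ∧
    Module.finrank (LL (k := k) x I) (Submodule.span (LL (k := k) x I)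
      (Submodule.span k (Set.range fun l => ω l E) : Set K)) ≤ N₁ ∧
    Module.finrank (LL (k := k) x Iᶜ) (Submodule.span (LL (k := k) x Iᶜ)
      (Submodule.span k (Set.range fun l => ω l E) : Set K)) ≤ N₂ ∧
    N ≤ Module.finrank (LL (k := k) x I) (Submodule.span (LL (k := k) x I)
      (Submodule.span k (Set.range fun l => ω l E) : Set K)) *
      Module.finrank (LL (k := k) x Iᶜ) (Submodule.span (LL (k := k) x Iᶜ)
      (Submodule.span k (Set.range fun l => ω l E) : Set K)) := by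
  have hn : Algebra.trdeg k K = n := by
    rw [← hx.cardinalMk_eq_trdeg, Cardinal.mk_fin]
  have hexp : ∀ D : Derivation k K K, ∃ a : Fin n → K, D = ∑ i, a i • E i :=
    fun D => ⟨_, der_expand hx hE D⟩
  have hlin := lin_frame hexp hli (fun l => (hω l).1) (one_ne_zero (α := K))
  simp only [one_mul] at hlin
  have hrank : Module.finrank k (Submodule.span k (Set.range fun l => ω l E)) = N := by
    rw [finrank_span_eq_card hlin, Fintype.card_fin]
  have hspan : ∀ T : IntermediateField k K, Submodule.span T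
      (Submodule.span k (Set.range fun l => ω l E) : Set K) =
      Submodule.span T (Set.range fun l => ω l E) := by
    intro T
    apply le_antisymm
    · rw [Submodule.span_le]
      exact Submodule.span_subset_span k T _
    · exact Submodule.span_mono Submodule.subset_span
  refine ⟨hrank, ?_, ?_, ?_⟩
  · rw [hspan]
    exact hN₁ _ (sec_rank hess hn hx hE I hI hδ₁ S ω hω)
  · rw [hspan]
    exact hN₂ _ (sec_rank hess hn hx hE Iᶜ hI' hδ₂ S ω hω)
  · obtain ⟨O, C, H⟩ := half₁ hx I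
    have hfd : FiniteDimensional k (Submodule.span k (Set.range fun l => ω l E)) :=
      FiniteDimensional.span_of_finite k (Set.finite_range _)
    have h1 := H.rank_le (Submodule.span k (Set.range fun l => ω l E))
    rwa [hrank] at h1

open scoped Classical in
/-- **The structure of the sections in the case of equality.** -/
theorem core (hess : Algebra.EssFiniteType k K) {x : Fin n → K}
    (hx : IsTranscendenceBasis k x) {I : Finset (Fin n)} (hI : I.Nonempty)
    (hI' : Iᶜ.Nonempty) {δ : Place k K → ℝ} {δ₁ : FibDiv k x I} {δ₂ : FibDiv k x Iᶜ}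
    (hδ₁ : IsRestr k x I δ δ₁) (hδ₂ : IsRestr k x Iᶜ δ δ₂) {S : Finset K} {m b N₁ N₂ : ℕ}
    (hN₁ : ∀ N', FibIndep k x I δ₁ S m b N' → N' ≤ N₁)
    (hN₂ : ∀ N', FibIndep k x Iᶜ δ₂ S m b N' → N' ≤ N₂)
    (hN : HasIndep k K n (N₁ * N₂) (PairSec k K n δ S m b)) (hpos : 0 < N₁ * N₂) :
    ∃ (w : K) (a : Fin N₂ → K) (c : Fin N₁ → K), w ≠ 0 ∧ (∀ j, a j ∈ LL (k := k) x I) ∧
      (∀ i, c i ∈ LL (k := k) x Iᶜ) ∧ LinearIndependent k a ∧ LinearIndependent k c ∧
      ∀ ω, PairSec k K n δ S m b ω ↔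
        ∃ s : Fin N₂ × Fin N₁ → k, ω = frm k x m (∑ p, s p • (a p.1 * c p.2 * w)) := by
  obtain ⟨E, hE⟩ := Pool.Agent.W636.PG.exists_duals k K n _ hx
  obtain ⟨ω, hli, hω⟩ := hN
  obtain ⟨hr, h1, h2, h3⟩ := two_bound hess hx hE hI hI' hδ₁ hδ₂ hN₁ hN₂ hω hli
  set W : Submodule k K := Submodule.span k (Set.range fun l => ω l E) with hW
  have hfd : FiniteDimensional k W := FiniteDimensional.span_of_finite k (Set.finite_range _)
  set h₁ := Module.finrank (LL (k := k) x I) (Submodule.span (LL (k := k) x I) (W : Set K))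
    with hh₁
  set h₂ := Module.finrank (LL (k := k) x Iᶜ) (Submodule.span (LL (k := k) x Iᶜ) (W : Set K))
    with hh₂
  have e1 : h₁ = N₁ := by
    by_contra hne
    have h4 : h₁ * h₂ < N₁ * N₂ := by
      have h5 : h₁ < N₁ := lt_of_le_of_ne h1 hne
      have h6 : 0 < N₂ := Nat.pos_of_mul_pos_left hpos
      calc h₁ * h₂ ≤ h₁ * N₂ := Nat.mul_le_mul_left _ h2
        _ < N₁ * N₂ := Nat.mul_lt_mul_of_pos_right h5 h6
    omega
  have e2 : h₂ = N₂ := by
    by_contra hne
    have h4 : h₁ * h₂ < N₁ * N₂ := by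
      have h5 : h₂ < N₂ := lt_of_le_of_ne h2 hne
      have h6 : 0 < N₁ := Nat.pos_of_mul_pos_right hpos
      calc h₁ * h₂ ≤ N₁ * h₂ := Nat.mul_le_mul_right _ h1
        _ < N₁ * N₂ := Nat.mul_lt_mul_of_pos_left h5 h6
    omega
  obtain ⟨O, C, H⟩ := half₁ hx I
  obtain ⟨O', C', H'⟩ := half₂ hx I
  obtain ⟨w, a, c, hw, ha, hc, hla, hlc, hWeq⟩ := rigid H H' W (by rw [hr]; exact hpos)
    (hh₁.symm.trans e1) (hh₂.symm.trans e2) (by rw [hr])
  refine ⟨w, a, c, hw, ha, hc, hla, hlc, fun η => ⟨fun hη => ?_, ?_⟩⟩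
  · have hmax : ∀ N', HasIndep k K n N' (PairSec k K n δ S m b) → N' ≤ N₁ * N₂ := by
      rintro N' ⟨ω', hli', hω'⟩
      obtain ⟨-, g1, g2, g3⟩ := two_bound hess hx hE hI hI' hδ₁ hδ₂ hN₁ hN₂ hω' hli'
      exact g3.trans (Nat.mul_le_mul g1 g2)
    obtain ⟨s, hs⟩ := sec_span hli hω hmax hη
    have h4 : η E ∈ W := by
      rw [hs, Finset.sum_apply]
      refine Submodule.sum_mem _ fun l _ => ?_
      exact Submodule.smul_mem _ _ (Submodule.subset_span ⟨l, rfl⟩)
    rw [hWeq] at h4
    obtain ⟨t, ht⟩ := (Submodule.mem_span_range_iff_exists_fun k).1 h4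
    refine ⟨t, ?_⟩
    rw [eq_frm hx hE hη.1, ← ht]
  · rintro ⟨t, rfl⟩
    have h4 : (∑ p, t p • (a p.1 * c p.2 * w)) ∈ W := by
      rw [hWeq]
      exact Submodule.sum_mem _ fun p _ => Submodule.smul_mem _ _ (Submodule.subset_span ⟨p, rfl⟩)
    obtain ⟨s, hs⟩ := (Submodule.mem_span_range_iff_exists_fun k).1 h4
    rw [← hs, frm_sum]
    have h5 : ∀ l, frm k x m (ω l E) = ω l := fun l => (eq_frm hx hE (hω l).1).symm
    simp only [h5]
    exact sec_comb hω s

end

end Pool.Agent.H891.RG
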