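import Pool.Agent.H891.RG.Half

/-! The structure of a space of functions in the case of equality. -/

set_option autoImplicit false

open Pool.Agent.H891.KS

namespace Pool.Agent.H891.RG

section

variable {k K Ω Γ : Type*} [Field k] [Field K] [Field Ω] [Algebra k K] [Algebra K Ω]
  [LinearOrderedCommGroupWithZero Γ] {Ω' Γ' : Type*} [Field Ω'] [Algebra K Ω']
  [LinearOrderedCommGroupWithZero Γ']
variable {v : Valuation Ω Γ} {v' : Valuation Ω' Γ'} {T₁ T₂ : IntermediateField k K}
  {C : Subfield Ω} {C' : Subfield Ω'}

open HalfVal

/-- the value of a sum of terms with different values -/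
theorem le_sum_val {Γ : Type*} [LinearOrderedCommGroupWithZero Γ] (v : Valuation K Γ) {ι : Type*}
    {s : Finset ι} {a : ι → K}
    (hd : ∀ i ∈ s, ∀ j ∈ s, v (a i) = v (a j) → i = j) :
    ∀ i ∈ s, v (a i) ≤ v (∑ j ∈ s, a j) := by
  classical
  intro i0 hi0
  obtain ⟨i, hi, hmax⟩ := s.exists_max_image (fun i => v (a i)) ⟨i0, hi0⟩
  rw [v.map_sum_eq_of_lt hi fun j hj => ?_]
  · exact hmax _ hi0
  · have hj' := Finset.mem_sdiff.1 hj
    refine lt_of_le_of_ne (hmax j hj'.1) fun h => hj'.2 ?_
    rw [hd j hj'.1 i hi h]
    exact Finset.mem_singleton_self _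

theorem span_smul_eq (T : IntermediateField k K) {c : K} (A : Set K) {x : K}
    (hx : x ∈ Submodule.span T ((fun a => a * c) '' A)) :
    ∃ y ∈ Submodule.span T A, x = y * c := by
  induction hx using Submodule.span_induction with
  | mem x hx =>
    obtain ⟨a, ha, rfl⟩ := hx
    exact ⟨a, Submodule.subset_span ha, rfl⟩
  | zero => exact ⟨0, Submodule.zero_mem _, by rw [zero_mul]⟩
  | add x y _ _ hx hy =>
    obtain ⟨x', hx', rfl⟩ := hx
    obtain ⟨y', hy', rfl⟩ := hy
    exact ⟨x' + y', Submodule.add_mem _ hx' hy', by rw [add_mul]⟩
  | smul t x _ hx =>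
    obtain ⟨x', hx', rfl⟩ := hx
    exact ⟨t • x', Submodule.smul_mem _ t hx', by rw [smul_mul_assoc]⟩

/-- `T₁ W = T₁ w₀ B` -/
theorem span_eq (H' : HalfVal v' T₂ T₁ C') (W : Submodule k K) [FiniteDimensional k W]
    {w₀ : K} (hw₀ : w₀ ≠ 0) (B : Submodule k K) (hB : ∀ b ∈ B, b ∈ T₂)
    (hBW : ∀ b ∈ B, b * w₀ ∈ W) [FiniteDimensional k B]
    (hr : Module.finrank T₁ (Submodule.span T₁ (W : Set K)) ≤ Module.finrank k B) :
    Module.finrank k B = Module.finrank T₁ (Submodule.span T₁ (W : Set K)) ∧
      ∀ w ∈ W, ∃ y ∈ Submodule.span T₁ (B : Set K), w = y * w₀ := by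
  classical
  have hfd := fd_span T₁ W
  let bas := Module.finBasis k B
  have hli : LinearIndependent k fun i => (bas i : K) :=
    bas.linearIndependent.map' B.subtype (Submodule.ker_subtype B)
  have hli1 : LinearIndependent T₁ fun i => (bas i : K) :=
    H'.lin_disj (fun i => hB _ (bas i).2) hli
  have hli2 : LinearIndependent T₁ fun i => (bas i : K) * w₀ := by
    have h1 : (fun i => (bas i : K) * w₀) = (LinearMap.mulRight T₁ w₀) ∘ fun i => (bas i : K) := rfl
    rw [h1]
    refine hli1.map' _ (LinearMap.ker_eq_bot.2 fun a b h => mul_right_cancel₀ hw₀ h)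
  have hmem : ∀ i, (bas i : K) * w₀ ∈ Submodule.span T₁ (W : Set K) := fun i =>
    Submodule.subset_span (hBW _ (bas i).2)
  have hli3 : LinearIndependent T₁ fun i =>
      (⟨(bas i : K) * w₀, hmem i⟩ : Submodule.span T₁ (W : Set K)) := by
    apply LinearIndependent.of_comp (Submodule.subtype _)
    exact hli2
  have h1 := hli3.fintype_card_le_finrank
  rw [Fintype.card_fin] at h1
  have h2 := le_antisymm h1 hr
  refine ⟨h2, fun w hw => ?_⟩
  have hspan : Submodule.span T₁ (Set.range fun i => (bas i : K) * w₀) =
      Submodule.span T₁ (W : Set K) := by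
    apply Submodule.eq_of_le_of_finrank_eq
    · rw [Submodule.span_le]
      rintro _ ⟨i, rfl⟩
      exact hmem i
    · rw [finrank_span_eq_card hli2, Fintype.card_fin, h2]
  have h3 : w ∈ Submodule.span T₁ (Set.range fun i => (bas i : K) * w₀) := by
    rw [hspan]
    exact Submodule.subset_span hw
  apply span_smul_eq
  refine Submodule.span_mono ?_ h3
  rintro _ ⟨i, rfl⟩
  exact ⟨_, (bas i).2, rfl⟩

/-- **Rigidity.** -/
theorem rigid (H : HalfVal v T₁ T₂ C) (H' : HalfVal v' T₂ T₁ C') (W : Submodule k K)
    [FiniteDimensional k W] (h0 : 0 < Module.finrank k W) {h₁ h₂ : ℕ}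
    (e₁ : Module.finrank T₁ (Submodule.span T₁ (W : Set K)) = h₁)
    (e₂ : Module.finrank T₂ (Submodule.span T₂ (W : Set K)) = h₂)
    (heq : Module.finrank k W = h₁ * h₂) :
    ∃ (w₀ : K) (a : Fin h₂ → K) (b : Fin h₁ → K), w₀ ≠ 0 ∧ (∀ j, a j ∈ T₁) ∧ (∀ i, b i ∈ T₂) ∧
      LinearIndependent k a ∧ LinearIndependent k b ∧
      W = Submodule.span k (Set.range fun p : Fin h₂ × Fin h₁ => a p.1 * b p.2 * w₀) := by
  classical
  subst e₁ e₂
  obtain ⟨w₀, hw₀W, hw₀, hdeep, B, hBT, hBW, hBfd, hBr⟩ := H.deepest W h0 heq
  obtain ⟨w₀', hw₀W', hw₀', -, A, hAT, hAW, hAfd, hAr⟩ := H'.deepest W h0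
    (by rw [heq, mul_comm])
  obtain ⟨hB1, hB2⟩ := span_eq H' W hw₀ B hBT hBW hBr
  obtain ⟨hA1, hA2⟩ := span_eq H W hw₀' A hAT hAW hAr
  -- a basis of `A` with distinct values
  obtain ⟨a, haA, ha0, hainj⟩ := exists_distinct_of (vK v K) A
    (fun w hw w' hw' h0 h => H.leafT (hAT w hw) (hAT w' hw') h0 h) _ hA1.ge
  have haT2 : LinearIndependent T₂ a := H.distinct_indepT ha0 hainj
  have hak : LinearIndependent k a := haT2.restrict_scalars (R := k) (by
    intro x y h
    have h1 : (algebraMap k T₂ x : T₂) = algebraMap k T₂ y := by
      simpa [Algebra.smul_def] using h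
    exact (algebraMap k T₂).injective h1)
  have hAspan : Submodule.span k (Set.range a) = A := by
    apply Submodule.eq_of_le_of_finrank_eq
    · rw [Submodule.span_le]
      rintro _ ⟨i, rfl⟩
      exact haA i
    · rw [finrank_span_eq_card hak, Fintype.card_fin, hA1]
  -- the quotient of `w₀` and `w₀'` is decomposable
  have hu : ∃ g ∈ T₂, ∃ j, w₀ = g * a j * w₀' := by
    obtain ⟨y, hy, hyw⟩ := hA2 w₀ hw₀W
    have hy' : y ∈ Submodule.span T₂ (Set.range a) := by
      have h1 : Submodule.span T₂ (A : Set K) ≤ Submodule.span T₂ (Set.range a) := by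
        rw [Submodule.span_le, ← hAspan]
        exact Submodule.span_subset_span k T₂ _
      exact h1 hy
    obtain ⟨g, hg⟩ := (Submodule.mem_span_range_iff_exists_fun T₂).1 hy'
    have hg' : ∑ j, (g j : K) * a j = y := by
      rw [← hg]
      exact Finset.sum_congr rfl fun j _ => rfl
    let s := Finset.univ.filter fun j => g j ≠ 0
    have hgne : ∀ j ∈ s, (g j : K) ≠ 0 := fun j hj h =>
      (Finset.mem_filter.1 hj).2 (Subtype.ext h)
    have hsum : ∑ j ∈ s, (g j : K) * a j = y := by
      rw [← hg', Finset.sum_filter_of_ne]
      intro j _ h h0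
      apply h
      rw [h0]
      simp
    have hval : ∀ j ∈ s, vK v K ((g j : K) * a j) = vK v K (a j) := by
      intro j hj
      rw [map_mul, H.trivT (g j).2 (hgne j hj), one_mul]
    have hmax := le_sum_val (vK v K) (s := s) (a := fun j => (g j : K) * a j)
      (fun i hi j hj h => hainj (by rwa [hval i hi, hval j hj] at h))
    rw [hsum] at hmax
    have hyle : ∀ j, vK v K y ≤ vK v K (a j) := by
      intro j
      have h1 := hdeep _ (hAW _ (haA j)) (mul_ne_zero (ha0 j) hw₀')
      rw [hyw, map_mul, map_mul] at h1
      exact le_of_mul_le_mul_right h1 (zero_lt_iff.2 ((Valuation.ne_zero_iff _).2 hw₀'))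
    have hy0 : y ≠ 0 := by
      rintro rfl
      rw [zero_mul] at hyw
      exact hw₀ hyw
    have hsne : s.Nonempty := by
      by_contra hcon
      rw [Finset.not_nonempty_iff_eq_empty] at hcon
      rw [hcon, Finset.sum_empty] at hsum
      exact hy0 hsum.symm
    obtain ⟨j, hj⟩ := hsne
    have hsj : s = {j} := by
      rw [Finset.eq_singleton_iff_unique_mem]
      refine ⟨hj, fun i hi => ?_⟩
      apply hainj
      have h1 := hmax i hi
      have h2 := hmax j hj
      simp only [hval i hi] at h1
      simp only [hval j hj] at h2
      exact le_antisymm (h1.trans (hyle j)) (h2.trans (hyle i))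
    rw [hsj, Finset.sum_singleton] at hsum
    exact ⟨g j, (g j).2, j, by rw [hyw, ← hsum]⟩
  obtain ⟨g, hg, j₀, hw₀eq⟩ := hu
  have hg0 : g ≠ 0 := by
    rintro rfl
    rw [zero_mul, zero_mul] at hw₀eq
    exact hw₀ hw₀eq
  -- a basis of `g B`
  let basB := Module.finBasisOfFinrankEq k B hB1
  let b : Fin (Module.finrank T₁ (Submodule.span T₁ (W : Set K))) → K := fun i => g * (basB i : K)
  have hbT : ∀ i, b i ∈ T₂ := fun i => T₂.mul_mem hg (hBT _ (basB i).2)
  have hBk : LinearIndependent k fun i => (basB i : K) :=
    basB.linearIndependent.map' B.subtype (Submodule.ker_subtype B)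
  have hbk : LinearIndependent k b := by
    have h1 : b = (LinearMap.mulLeft k g) ∘ fun i => (basB i : K) := rfl
    rw [h1]
    exact hBk.map' _ (LinearMap.ker_eq_bot.2 fun a b h => mul_left_cancel₀ hg0 h)
  let P : Submodule k K := Submodule.span k (Set.range fun p : Fin (Module.finrank T₂
    (Submodule.span T₂ (W : Set K))) × Fin (Module.finrank T₁ (Submodule.span T₁ (W : Set K))) =>
      a p.1 * b p.2 * w₀')
  have hPfd : FiniteDimensional k P := FiniteDimensional.span_of_finite k (Set.finite_range _)
  have hPrank : Module.finrank k P = Module.finrank k W := by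
    have h1 : LinearIndependent k fun i => (⟨b i, hbT i⟩ : T₂) := by
      apply LinearIndependent.of_comp (T₂.val.toLinearMap)
      exact hbk
    have h2 := linearIndependent_smul h1 haT2
    have h3 : LinearIndependent k fun p : Fin (Module.finrank T₂
        (Submodule.span T₂ (W : Set K))) × Fin (Module.finrank T₁ (Submodule.span T₁ (W : Set K))) =>
          a p.1 * b p.2 * w₀' := by
      have h4 := h2.comp (Prod.swap : Fin (Module.finrank T₂ (Submodule.span T₂ (W : Set K))) ×
        Fin (Module.finrank T₁ (Submodule.span T₁ (W : Set K))) → _) Prod.swap_injective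
      have h5 := h4.map' (LinearMap.mulRight k w₀')
        (LinearMap.ker_eq_bot.2 fun a b h => mul_right_cancel₀ hw₀' h)
      have h6 : (fun p : Fin (Module.finrank T₂ (Submodule.span T₂ (W : Set K))) ×
          Fin (Module.finrank T₁ (Submodule.span T₁ (W : Set K))) => a p.1 * b p.2 * w₀') =
          (LinearMap.mulRight k w₀') ∘ (fun p : Fin (Module.finrank T₁
            (Submodule.span T₁ (W : Set K))) × Fin (Module.finrank T₂
            (Submodule.span T₂ (W : Set K))) => (⟨b p.1, hbT p.1⟩ : T₂) • a p.2) ∘ Prod.swap := by
        funext p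
        show a p.1 * b p.2 * w₀' = b p.2 * a p.1 * w₀'
        ring
      rw [h6]
      exact h5
    rw [finrank_span_eq_card h3, Fintype.card_prod, Fintype.card_fin, Fintype.card_fin, heq,
      mul_comm]
  -- the sum has the same rank
  have hsup : Module.finrank k ↥(W ⊔ P) ≤ Module.finrank k W := by
    have h1 := H.rank_le (W ⊔ P)
    refine h1.trans ?_
    rw [heq]
    refine Nat.mul_le_mul ?_ ?_
    · -- over `T₁`
      have h2 : Submodule.span T₁ ((W ⊔ P : Submodule k K) : Set K) ≤
          Submodule.span T₁ (Set.range fun i => b i * w₀') := by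
        rw [Submodule.span_le]
        have h3 : W ⊔ P ≤ (Submodule.span T₁ (Set.range fun i => b i * w₀')).restrictScalars k := by
          refine sup_le ?_ ?_
          · intro w hw
            obtain ⟨y, hy, rfl⟩ := hB2 w hw
            show y * w₀ ∈ Submodule.span T₁ (Set.range fun i => b i * w₀')
            have h4 : ∀ y ∈ Submodule.span T₁ (B : Set K),
                y * w₀ ∈ Submodule.span T₁ (Set.range fun i => b i * w₀') := by
              intro y hy
              induction hy using Submodule.span_induction with
              | mem y hy =>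
                have h5 : y ∈ Submodule.span k (Set.range fun i => (basB i : K)) := by
                  have h6 := basB.sum_repr ⟨y, hy⟩
                  have h7 := congrArg (Submodule.subtype _) h6
                  rw [map_sum] at h7
                  change _ = y at h7
                  rw [← h7]
                  exact Submodule.sum_mem _ fun i _ => by
                    rw [map_smul]
                    exact Submodule.smul_mem _ _ (Submodule.subset_span ⟨i, rfl⟩)
                clear hy
                induction h5 using Submodule.span_induction with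
                | mem y hy =>
                  obtain ⟨i, rfl⟩ := hy
                  have h6 : (basB i : K) * w₀ = (⟨a j₀, hAT _ (haA j₀)⟩ : T₁) • (b i * w₀') := by
                    show _ = a j₀ * (g * (basB i : K) * w₀')
                    rw [hw₀eq]
                    ring
                  rw [h6]
                  exact Submodule.smul_mem _ _ (Submodule.subset_span ⟨i, rfl⟩)
                | zero => rw [zero_mul]; exact Submodule.zero_mem _
                | add x y _ _ hx hy => rw [add_mul]; exact Submodule.add_mem _ hx hy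
                | smul c x _ hx =>
                  rw [smul_mul_assoc, ← algebraMap_smul T₁ c (x * w₀)]
                  exact Submodule.smul_mem _ _ hx
              | zero => rw [zero_mul]; exact Submodule.zero_mem _
              | add x y _ _ hx hy => rw [add_mul]; exact Submodule.add_mem _ hx hy
              | smul c x _ hx =>
                rw [smul_mul_assoc]
                exact Submodule.smul_mem _ _ hx
            exact h4 y hy
          · rw [Submodule.span_le]
            rintro _ ⟨p, rfl⟩
            show a p.1 * b p.2 * w₀' ∈ Submodule.span T₁ (Set.range fun i => b i * w₀')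
            have h6 : a p.1 * b p.2 * w₀' = (⟨a p.1, hAT _ (haA p.1)⟩ : T₁) • (b p.2 * w₀') := by
              show _ = a p.1 * (b p.2 * w₀')
              ring
            rw [h6]
            exact Submodule.smul_mem _ _ (Submodule.subset_span ⟨p.2, rfl⟩)
        exact h3
      have hfd : FiniteDimensional T₁ (Submodule.span T₁ (Set.range fun i => b i * w₀')) :=
        FiniteDimensional.span_of_finite _ (Set.finite_range _)
      refine (Submodule.finrank_mono h2).trans ?_
      exact (finrank_range_le_card _).trans (by rw [Fintype.card_fin])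
    · -- over `T₂`
      have h2 : Submodule.span T₂ ((W ⊔ P : Submodule k K) : Set K) ≤
          Submodule.span T₂ (Set.range fun i => a i * w₀') := by
        rw [Submodule.span_le]
        have h3 : W ⊔ P ≤ (Submodule.span T₂ (Set.range fun i => a i * w₀')).restrictScalars k := by
          refine sup_le ?_ ?_
          · intro w hw
            obtain ⟨y, hy, rfl⟩ := hA2 w hw
            show y * w₀' ∈ Submodule.span T₂ (Set.range fun i => a i * w₀')
            have h4 : ∀ y ∈ Submodule.span T₂ (A : Set K),
                y * w₀' ∈ Submodule.span T₂ (Set.range fun i => a i * w₀') := by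
              intro y hy
              induction hy using Submodule.span_induction with
              | mem y hy =>
                have h5 : y ∈ Submodule.span k (Set.range a) := by
                  rw [hAspan]
                  exact hy
                clear hy
                induction h5 using Submodule.span_induction with
                | mem y hy =>
                  obtain ⟨i, rfl⟩ := hy
                  exact Submodule.subset_span ⟨i, rfl⟩
                | zero => rw [zero_mul]; exact Submodule.zero_mem _
                | add x y _ _ hx hy => rw [add_mul]; exact Submodule.add_mem _ hx hy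
                | smul c x _ hx =>
                  rw [smul_mul_assoc, ← algebraMap_smul T₂ c (x * w₀')]
                  exact Submodule.smul_mem _ _ hx
              | zero => rw [zero_mul]; exact Submodule.zero_mem _
              | add x y _ _ hx hy => rw [add_mul]; exact Submodule.add_mem _ hx hy
              | smul c x _ hx =>
                rw [smul_mul_assoc]
                exact Submodule.smul_mem _ _ hx
            exact h4 y hy
          · rw [Submodule.span_le]
            rintro _ ⟨p, rfl⟩
            show a p.1 * b p.2 * w₀' ∈ Submodule.span T₂ (Set.range fun i => a i * w₀')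
            have h6 : a p.1 * b p.2 * w₀' = (⟨b p.2, hbT p.2⟩ : T₂) • (a p.1 * w₀') := by
              show _ = b p.2 * (a p.1 * w₀')
              ring
            rw [h6]
            exact Submodule.smul_mem _ _ (Submodule.subset_span ⟨p.1, rfl⟩)
        exact h3
      have hfd : FiniteDimensional T₂ (Submodule.span T₂ (Set.range fun i => a i * w₀')) :=
        FiniteDimensional.span_of_finite _ (Set.finite_range _)
      refine (Submodule.finrank_mono h2).trans ?_
      exact (finrank_range_le_card _).trans (by rw [Fintype.card_fin])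
  have hfdsup : FiniteDimensional k ↥(W ⊔ P) := inferInstance
  have h1 : W = W ⊔ P := Submodule.eq_of_le_of_finrank_le le_sup_left hsup
  have h2 : P = W ⊔ P := Submodule.eq_of_le_of_finrank_le le_sup_right (by rw [hPrank]; exact hsup)
  exact ⟨w₀', a, b, hw₀', fun j => hAT _ (haA j), hbT, hak, hbk, h1.trans h2.symm⟩

end

end Pool.Agent.H891.RG
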