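import Pool.Agent.H891.RG.Exist
import Pool.Graph.R_seed8.Y174.B5

/-! Sections of pairs and spaces of functions. -/

set_option autoImplicit false
set_option linter.overlappingInstances false
set_option linter.unusedSectionVars false

open FF IntermediateField Pool.Agent.W619.PQ Pool.Agent.W619.PL Pool.Agent.W619.TW
  Pool.Agent.W603.LV Pool.Agent.W619.Y Pool.Agent.Y174 Pool.Agent.Y173.QA Pool.Agent.H891.KS

universe u v

namespace Pool.Agent.H891.RG

section

variable {k : Type v} {K : Type u} [Field k] [CharZero k] [Field K] [Algebra k K] {n : ℕ}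

/-- Linear combinations of sections are sections. -/
theorem sec_comb {δ : Place k K → ℝ} {S : Finset K} {m b : ℕ} {ι : Type*} [Fintype ι]
    {ω : ι → (Fin n → Derivation k K K) → K} (hω : ∀ l, PairSec k K n δ S m b (ω l)) (c : ι → k) :
    PairSec k K n δ S m b (∑ l, c l • ω l) := by
  classical
  refine ⟨fun A D => ?_, fun v hv D hD => ?_⟩
  · rw [Finset.sum_apply, Finset.sum_apply, Finset.mul_sum]
    refine Finset.sum_congr rfl fun l _ => ?_
    rw [Pi.smul_apply, Pi.smul_apply, (hω l).1 A D, mul_smul_comm]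
  · by_cases h0 : (∑ l, c l • ω l) D = 0
    · exact Or.inl h0
    right
    rw [Finset.sum_apply] at h0 ⊢
    let s := Finset.univ.filter fun l => c l • ω l D ≠ 0
    have hs : s.Nonempty := by
      by_contra hcon
      rw [Finset.not_nonempty_iff_eq_empty] at hcon
      apply h0
      refine Finset.sum_eq_zero fun l _ => ?_
      by_contra h1
      have h2 : l ∈ s := Finset.mem_filter.2 ⟨Finset.mem_univ _, h1⟩
      rw [hcon] at h2
      exact absurd h2 (Finset.notMem_empty _)
    have hex : ∀ l : s, ∃ t ∈ S, t ≠ 0 ∧ (b : ℝ) * v.ord t - m * δ v ≤ v.ord (ω l D) := by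
      intro l
      rcases (hω l).2 v hv D hD with h1 | h1
      · have h2 := (Finset.mem_filter.1 l.2).2
        rw [h1, smul_zero] at h2
        exact (h2 rfl).elim
      · exact h1
    choose t htS ht0 ht using hex
    have hsne : (Finset.univ : Finset s).Nonempty := ⟨⟨_, hs.choose_spec⟩, Finset.mem_univ _⟩
    obtain ⟨l₀, -, hmin⟩ := Finset.univ.exists_min_image (fun l : s => v.ord (t l)) hsne
    refine ⟨t l₀, htS l₀, ht0 l₀, ?_⟩
    have h1 : GeR v ((b : ℝ) * v.ord (t l₀) - m * δ v) (∑ l, c l • ω l D) := by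
      refine GeR.sum _ _ _ fun l _ => ?_
      by_cases hl : c l • ω l D = 0
      · exact Or.inl hl
      right
      have hls : l ∈ s := Finset.mem_filter.2 ⟨Finset.mem_univ _, hl⟩
      have hc : c l ≠ 0 := fun h => hl (by rw [h, zero_smul])
      have hw : ω l D ≠ 0 := fun h => hl (by rw [h, smul_zero])
      rw [Algebra.smul_def, v.ord_mul ((map_ne_zero _).2 hc) hw, v.ord_const hc, zero_add]
      have h2 := ht ⟨l, hls⟩
      have h3 : v.ord (t l₀) ≤ v.ord (t ⟨l, hls⟩) := hmin ⟨l, hls⟩ (Finset.mem_univ _)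
      have h4 : (v.ord (t l₀) : ℝ) ≤ v.ord (t ⟨l, hls⟩) := by exact_mod_cast h3
      have h5 : (b : ℝ) * v.ord (t l₀) ≤ (b : ℝ) * v.ord (t ⟨l, hls⟩) :=
        mul_le_mul_of_nonneg_left h4 (Nat.cast_nonneg _)
      exact le_trans (by linarith) h2
    exact h1.resolve_left h0

end

section

variable (k : Type v) {K : Type u} [Field k] [Field K] [Algebra k K] {n : ℕ}

/-- The rational `m`-canonical form `w (dx 0 ∧ ... ∧ dx (n - 1)) ^ m`. -/
noncomputable def frm (x : Fin n → K) (m : ℕ) (w : K) : (Fin n → Derivation k K K) → K :=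
  fun D => (Matrix.of fun i j => D i (x j)).det ^ m * w

end

section

variable {k : Type v} {K : Type u} [Field k] [CharZero k] [Field K] [Algebra k K] {n : ℕ}

theorem frm_E {x : Fin n → K} {E : Fin n → Derivation k K K}
    (hE : ∀ i j, E i (x j) = if i = j then 1 else 0) (m : ℕ) (w : K) :
    frm k x m w E = w := by
  have h1 : (Matrix.of fun a b => E a (x b)) = 1 := by
    ext a b
    rw [Matrix.of_apply, Matrix.one_apply]
    exact hE a b
  show (Matrix.of fun a b => E a (x b)).det ^ m * w = w
  rw [h1, Matrix.det_one, one_pow, one_mul]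

theorem eq_frm {x : Fin n → K} (hx : IsTranscendenceBasis k x) {E : Fin n → Derivation k K K}
    (hE : ∀ i j, E i (x j) = if i = j then 1 else 0) {m : ℕ}
    {ω : (Fin n → Derivation k K K) → K} (hω : IsPluriForm k K n m ω) :
    ω = frm k x m (ω E) :=
  funext fun D => Pool.Agent.W636.PG.form_eq k K n m x hx E hE ω hω D

theorem frm_sum {x : Fin n → K} {m : ℕ} {ι : Type*} [Fintype ι] (c : ι → k) (w : ι → K) :
    frm k x m (∑ l, c l • w l) = ∑ l, c l • frm k x m (w l) := by
  funext D
  rw [Finset.sum_apply]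
  show _ * _ = _
  rw [Finset.mul_sum]
  refine Finset.sum_congr rfl fun l _ => ?_
  rw [Pi.smul_apply, mul_smul_comm]
  rfl

theorem frm_indep {x : Fin n → K} {E : Fin n → Derivation k K K}
    (hE : ∀ i j, E i (x j) = if i = j then 1 else 0) {m : ℕ} {ι : Type*} {w : ι → K}
    (hw : LinearIndependent k w) : LinearIndependent k fun l => frm k x m (w l) := by
  have h1 : w = (LinearMap.proj E : ((Fin n → Derivation k K K) → K) →ₗ[k] K) ∘
      fun l => frm k x m (w l) := funext fun l => (frm_E hE m (w l)).symm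
  rw [h1] at hw
  exact hw.of_comp _

/-- A maximal family of independent sections spans. -/
theorem sec_span {δ : Place k K → ℝ} {S : Finset K} {m b N : ℕ}
    {ω : Fin N → (Fin n → Derivation k K K) → K} (hli : LinearIndependent k ω)
    (hω : ∀ l, PairSec k K n δ S m b (ω l))
    (hmax : ∀ N', HasIndep k K n N' (PairSec k K n δ S m b) → N' ≤ N)
    {η : (Fin n → Derivation k K K) → K} (hη : PairSec k K n δ S m b η) :
    ∃ c : Fin N → k, η = ∑ l, c l • ω l := by
  by_contra hcon
  have h1 : η ∉ Submodule.span k (Set.range ω) := by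
    intro h
    obtain ⟨c, hc⟩ := (Submodule.mem_span_range_iff_exists_fun k).1 h
    exact hcon ⟨c, hc.symm⟩
  have h2 := hmax (N + 1) ⟨Fin.cons η ω, linearIndependent_finCons.2 ⟨hli, h1⟩,
    fun l => Fin.cases hη hω l⟩
  omega

end

end Pool.Agent.H891.RG
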